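import Mathlib

set_option autoImplicit false

/-!
Multiplicities of exponents modulo the integers: definitions.
-/

open Finset

namespace Pool.Agent.N858.R4

section defs

variable {X : Type*} {n : ℕ}

/-- Two rational numbers differ by an integer. -/
def Cong (a b : ℚ) : Prop := ∃ w : ℤ, a - b = w

open Classical in
/-- The number of the exponents at the point `x` which are congruent to `e x k` modulo the
integers. -/
noncomputable def mult (e : X → Fin n → ℚ) (x : X) (k : Fin n) : ℕ :=
  (univ.filter fun l => Cong (e x k) (e x l)).card

/-- The sum of the multiplicities: the number of the ordered pairs of congruent exponents at the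
point `x`. -/
noncomputable def pairs (e : X → Fin n → ℚ) (x : X) : ℕ := ∑ k, mult e x k

/-- At every point different from the three points `p i` the exponents are congruent to one
another. -/
def ScalarOutside (e : X → Fin n → ℚ) (p : Fin 3 → X) : Prop :=
  ∀ x, (∀ i, x ≠ p i) → ∀ l l', Cong (e x l) (e x l')

/-- The condition on the multiplicities of the exponents at the three points `p i`. -/
def MultCond (e : X → Fin n → ℚ) (p : Fin 3 → X) : Prop :=
  (∃ i k, n ^ 2 + 2 * pairs e (p i) < ∑ j, pairs e (p j) + 2 * n * mult e (p i) k) ∨
  ∀ i k k', ¬ Cong (e (p i) k) (e (p i) k') →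
    n ^ 2 + 2 * pairs e (p i) + 2 * mult e (p i) k * mult e (p i) k' <
      ∑ j, pairs e (p j) + 2 * n * (mult e (p i) k + mult e (p i) k')

/-- There is a choice of one exponent at every point with integral sum. -/
def Resonant [Fintype X] (e : X → Fin n → ℚ) : Prop :=
  ∃ (κ : X → Fin n) (w : ℤ), ∑ x, e x (κ x) = w

end defs

end Pool.Agent.N858.R4
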