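import Pool.Agent.N858.R4.Abs5
import Pool.Agent.N858.PC.FinalSys
import Pool.Agent.N858.R4.MDefs

set_option autoImplicit false

/-!
Systems with rough denominators and at most three non-scalar points: resonances in rank at most
four, and in any rank under a condition on the multiplicities.
-/

open Finset

namespace Pool.Agent.N858.R4

open Pool.Agent.N858.PC

open Classical in
lemma crit_of_mult {X : Type*} {n : ℕ} {e : X → Fin n → ℚ} {p : Fin 3 → X}
    (h : MultCond e p) : Crit (fun x i j => ∃ w : ℤ, e (p x) i - e (p x) j = w) := by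
  have e1 : ∀ x k, mu (fun i j => ∃ w : ℤ, e (p x) i - e (p x) j = w) k =
      (mult e (p x) k : ℤ) := by
    intro x k
    unfold mu mult Cong
    rw [card_filter]
    push_cast
    rfl
  have e2 : ∀ x, pr (fun i j => ∃ w : ℤ, e (p x) i - e (p x) j = w) = (pairs e (p x) : ℤ) := by
    intro x
    unfold pairs
    push_cast
    rw [← sum_congr rfl fun k _ => e1 x k]
    rfl
  rcases h with ⟨x, k, h⟩ | h
  · left
    refine ⟨x, k, ?_⟩
    simp only [e1, e2]
    exact_mod_cast h
  · right
    intro x k k' hk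
    simp only [e1, e2]
    exact_mod_cast h x k k' hk

lemma equiv_cong {n : ℕ} (f : Fin n → ℚ) :
    Equivalence (fun i j => ∃ w : ℤ, f i - f j = w) where
  refl i := ⟨0, by simp⟩
  symm := by
    rintro i j ⟨w, hw⟩
    exact ⟨-w, by push_cast; rw [← hw]; ring⟩
  trans := by
    rintro i j k ⟨w, hw⟩ ⟨w', hw'⟩
    exact ⟨w + w', by push_cast; rw [← hw, ← hw']; ring⟩

theorem resonance (m n : ℕ) (hn : 0 < n) : ∃ B : ℕ, ∀ (lam : Fin m → Fin n → ℚ)
    (phi : Fin n → ℚ) (N : ℕ) (F : ℤ) (p : Fin 3 → Option (Fin m)), 0 < N →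
    ∑ j, ∑ l, lam j l = ∑ l, phi l + F →
    Rough B (allExp lam phi) → Function.Injective p → ScalarOutside (allExp lam phi) p →
    (n ≤ 4 ∨ MultCond (allExp lam phi) p) →
    (∀ a : ℤ, IsCoprime a (N : ℤ) → Pool.Agent.Y227.SS.SemistableWeights ℂ
      (fun j l => (a : ℝ) * lam j l) (fun l => (a : ℝ) * phi l)) →
    Resonant (allExp lam phi) := by
  classical
  obtain ⟨B, hB⟩ := abs_crit (Option (Fin m)) n hn
  refine ⟨B, fun lam phi N F p hN hF hR hp hsc hC hSS => ?_⟩
  obtain ⟨q, hq, hrough, hd⟩ := hR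
  have hFa : ∀ a : ℤ, ∑ j, ∑ l, (a : ℝ) * lam j l = ∑ l, (a : ℝ) * phi l + ((a * F : ℤ) : ℝ) := by
    intro a
    have h1 := congrArg (fun r : ℚ => (a : ℝ) * (r : ℝ)) hF
    push_cast at h1 ⊢
    simp only [← mul_sum]
    linarith
  have htr : ∃ w : ℤ, ∑ x, ∑ l, allExp lam phi x l = w := by
    refine ⟨F, ?_⟩
    rw [Fintype.sum_option]
    simp only [allExp, sum_neg_distrib, hF]
    ring
  obtain ⟨D, W, hD, hW⟩ := Pool.Agent.N858.P5.common_den
    fun t : Option (Fin m) × Fin n => allExp lam phi t.1 t.2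
  refine hB (allExp lam phi) q N p hp hq hN hrough hd htr (fun a ha => ?_) (fun a ha => ?_)
    (fun x hx l l' => hsc x hx l l') ?_
  · rw [allExp_mul]
    exact lineSS_of (hSS a ha) _ (hFa a)
  · have h1 : SSW (fun x l => (a : ℝ) * ((allExp lam phi x l : ℚ) : ℝ)) := by
      refine semiWeights_congr (hSS a ha) (fun j l => ⟨0, ?_⟩) fun l => ⟨0, ?_⟩
      · simp [allExp]
      · simp [allExp]
    intro x y w hxy hyw hxw k
    refine dk_nonneg h1 hD (fun q l => ⟨a * W (q, l), ?_⟩) (fun e => hxy (hp e))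
      (fun e => hxw (hp e)) (fun e => hyw (hp e)) ⟨0, hn⟩ (fun q hqx hqy hqw l => ?_) k
    · have h2 := congrArg (fun r : ℚ => (r : ℝ)) (hW (q, l))
      push_cast at h2 ⊢
      rw [← h2]
      ring
    · obtain ⟨z, hz⟩ := hsc q (by
        intro i
        have : i = x ∨ i = y ∨ i = w := by
          clear * - hxy hyw hxw
          revert x y w i
          decide
        rcases this with e | e | e <;> rw [e] <;> assumption) l ⟨0, hn⟩
      refine ⟨a * z, ?_⟩
      have h2 := congrArg (fun r : ℚ => (r : ℝ)) hz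
      push_cast at h2 ⊢
      rw [← h2]
      ring
  · rcases hC with h4 | hC
    · exact crit_small hn h4 _ fun x => equiv_cong _
    · exact crit_of_mult hC

section sys

open Pool.Agent.W432.PC Pool.Agent.W432.TC Pool.Agent.Y227.SS

universe u

theorem three_sys (n r : ℕ) (hr : 0 < r) :
    ∃ (ε : ℝ) (B : ℕ), 0 < ε ∧
      ∀ (R : Type u) [CommRing R] [IsDomain R] [CharZero R] [Algebra.FiniteType ℤ R]
        (α : Fin n → R) (A : Fin n → Matrix (Fin r) (Fin r) R)
        (lam : Fin n → Fin r → ℚ) (phi : Fin r → ℚ) (N : ℕ) (p : Fin 3 → Option (Fin n)),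
        (∀ i j, i ≠ j → IsUnit (α i - α j)) →
        (∀ j, HasExponents (A j) (lam j)) → HasExponents (∑ j, A j) phi →
        0 < N → (∀ j l, ∃ m : ℤ, (N : ℚ) * lam j l = m) → (∀ l, ∃ m : ℤ, (N : ℚ) * phi l = m) →
        Rough B (allExp lam phi) → Function.Injective p → ScalarOutside (allExp lam phi) p →
        (r ≤ 4 ∨ MultCond (allExp lam phi) p) →
        Resonant (allExp lam phi) ∨ (BadClasses α A N ε 1 ∧ ¬ CondII α A) := by
  obtain ⟨ε, 𝒟, hε, -, huni⟩ := uniform.{u} n r
  obtain ⟨B, hB⟩ := resonance n r hr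
  refine ⟨ε, B, hε, ?_⟩
  intro R _ _ _ _ α A lam phi N p hα hlam hphi hN hNlam hNphi hR hp hsc hC
  have hF : ∑ j, ∑ l, lam j l = ∑ l, phi l + ((0 : ℤ) : ℚ) := by
    rw [sum_exponents hlam hphi]; simp
  rcases (huni R α A lam phi N hα hlam hphi hN hNlam hNphi).1 with ⟨-, h⟩ | h
  · exact Or.inl (hB lam phi N 0 p hN hF hR hp hsc hC h)
  · exact Or.inr h

/-- Systems on the thrice punctured line. -/
theorem three_thrice (r : ℕ) (hr : 0 < r) :
    ∃ (ε : ℝ) (B : ℕ), 0 < ε ∧
      ∀ (R : Type u) [CommRing R] [IsDomain R] [CharZero R] [Algebra.FiniteType ℤ R]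
        (b c : Matrix (Fin r) (Fin r) R) (lam : Fin 3 → Fin r → ℚ) (N : ℕ),
        HasExponents b (lam 0) → HasExponents c (lam 1) →
        HasExponents (b + c) (fun l => -lam 2 l) →
        0 < N → (∀ j l, ∃ m : ℤ, (N : ℚ) * lam j l = m) →
        Rough B lam → (r ≤ 4 ∨ MultCond lam id) →
        Resonant lam ∨ (BadClasses ![0, 1] ![b, c] N ε 1 ∧ ¬ CondII ![0, 1] ![b, c]) := by
  obtain ⟨ε, B, hε, h⟩ := three_sys.{u} 2 r hr
  refine ⟨ε, B, hε, ?_⟩
  intro R _ _ _ _ b c lam N h0 h1 h2 hN hNlam hR hC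
  let p : Fin 3 → Option (Fin 2) := ![some 0, some 1, none]
  have hp : Function.Injective p := by decide
  have hps : Function.Surjective p := by decide
  have hE : ∀ x l, allExp (fun j : Fin 2 => lam j.castSucc) (fun l => -lam 2 l) (p x) l =
      lam x l := by
    intro x l
    fin_cases x
    · rfl
    · rfl
    · show - -lam 2 l = lam 2 l
      rw [neg_neg]
  have hE' : ∀ x, allExp (fun j : Fin 2 => lam j.castSucc) (fun l => -lam 2 l) (p x) = lam x :=
    fun x => funext fun l => hE x l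
  have key := h R ![0, 1] ![b, c] (fun j => lam j.castSucc) (fun l => -lam 2 l) N p (by
      intro i j hij
      fin_cases i <;> fin_cases j
      · exact absurd rfl hij
      · simp
      · simp
      · exact absurd rfl hij) (by
      intro j
      fin_cases j
      · exact h0
      · exact h1) (by
      rw [Fin.sum_univ_two]
      exact h2) hN (fun j l => hNlam _ l) (fun l => by
      obtain ⟨m, hm⟩ := hNlam 2 l
      exact ⟨-m, by push_cast; rw [← hm]; ring⟩) (by
      obtain ⟨q, hq, hrough, hd⟩ := hR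
      refine ⟨q, hq, hrough, fun x l l' => ?_⟩
      obtain ⟨y, rfl⟩ := hps x
      rw [hE, hE]
      exact hd y l l') hp (by
      intro x hx
      obtain ⟨y, rfl⟩ := hps x
      exact absurd rfl (hx y)) (by
      refine hC.imp id fun hC => ?_
      have hm : ∀ x k, mult (allExp (fun j : Fin 2 => lam j.castSucc) (fun l => -lam 2 l)) (p x) k =
          mult lam x k := by
        intro x k
        unfold mult Cong
        rw [hE' x]
      have hpa : ∀ x, pairs (allExp (fun j : Fin 2 => lam j.castSucc) (fun l => -lam 2 l)) (p x) =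
          pairs lam x := fun x => sum_congr rfl fun k _ => hm x k
      unfold MultCond at hC ⊢
      simp only [hm, hpa, hE, id] at hC ⊢
      exact hC)
  refine key.imp ?_ id
  rintro ⟨κ, w, hw⟩
  refine ⟨fun x => κ (p x), w, ?_⟩
  rw [← hw, Fintype.sum_option, Fin.sum_univ_two, Fin.sum_univ_three]
  have e0 := hE 0 (κ (p 0))
  have e1 := hE 1 (κ (p 1))
  have e2 := hE 2 (κ (p 2))
  rw [← e0, ← e1, ← e2]
  have p0 : p 0 = some 0 := rfl
  have p1 : p 1 = some 1 := rfl
  have p2 : p 2 = none := rfl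
  rw [p0, p1, p2]
  ring

end sys

end Pool.Agent.N858.R4
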