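import Pool.Agent.N858.R4.Core2
import Pool.Agent.N858.PC.Abs

set_option autoImplicit false

/-!
The quadratic inequality for the points of the annihilator of the relations.
-/

open Finset Filter

namespace Pool.Agent.N858.R4

open Pool.Agent.N858.PC
open Pool.Agent.N858.P5 (bet bet_add_int bet_int bet_neg)

lemma continuous_bet : Continuous bet := by
  have h : ContinuousOn (Function.uncurry fun (_ : ℝ) (t : ℝ) => t ^ 2 - t + 1 / 6)
      (Set.univ ×ˢ Set.Icc (0 : ℝ) 1) := by
    apply Continuous.continuousOn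
    unfold Function.uncurry
    fun_prop
  have h1 := ContinuousOn.comp_fract h continuous_id (fun s => by norm_num)
  exact h1

variable {n : ℕ}

/-- Shifts of the exponents at the three points. -/
lemma DK_add (f g h : Fin n → ℝ) (s s' s'' : ℝ) (k : Fin n) :
    DK (fun l => f l + s) (fun l => g l + s') (fun l => h l + s'') k =
      DK f g (fun l => h l + (s + s' + s'')) k := by
  unfold DK
  have e1 : ∀ (a : Fin n → ℝ) (s : ℝ), ∑ i, ∑ j, bet (a i + s - (a j + s)) =
      ∑ i, ∑ j, bet (a i - a j) := fun a s =>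
    sum_congr rfl fun i _ => sum_congr rfl fun j _ => by congr 1; ring
  have e2 : ∑ i, ∑ j, bet (f k + s + (g i + s') + (h j + s'')) =
      ∑ i, ∑ j, bet (f k + g i + (h j + (s + s' + s''))) :=
    sum_congr rfl fun i _ => sum_congr rfl fun j _ => by congr 1; ring
  have e3 : ∑ l, bet (f k + s - (f l + s)) = ∑ l, bet (f k - f l) :=
    sum_congr rfl fun j _ => by congr 1; ring
  rw [e1, e1, e1, e1, e2, e3]

/-- Shifts of the exponents by integers. -/
lemma DK_int {f g h f' g' h' : Fin n → ℝ} (hf : ∀ l, ∃ w : ℤ, f l = f' l + w)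
    (hg : ∀ l, ∃ w : ℤ, g l = g' l + w) (hh : ∀ l, ∃ w : ℤ, h l = h' l + w) (k : Fin n) :
    DK f g h k = DK f' g' h' k := by
  choose u hu using hf
  choose v hv using hg
  choose w hw using hh
  unfold DK
  have e1 : ∀ (a a' : Fin n → ℝ) (u : Fin n → ℤ), (∀ l, a l = a' l + u l) →
      ∀ i j, bet (a i - a j) = bet (a' i - a' j) := by
    intro a a' u hu i j
    have : a i - a j = a' i - a' j + ((u i - u j : ℤ) : ℝ) := by
      rw [hu, hu]; push_cast; ring
    rw [this, bet_add_int]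
  have e2 : ∀ i j, bet (f k + g i + h j) = bet (f' k + g' i + h' j) := by
    intro i j
    have : f k + g i + h j = f' k + g' i + h' j + ((u k + v i + w j : ℤ) : ℝ) := by
      rw [hu, hv, hw]; push_cast; ring
    rw [this, bet_add_int]
  simp only [e1 f f' u hu, e1 g g' v hv, e1 h h' w hw, e2]

lemma DK_symm (f g h : Fin n → ℝ) (k : Fin n) : DK f g h k = DK f h g k := by
  unfold DK
  have e2 : ∑ i, ∑ j, bet (f k + g i + h j) = ∑ i, ∑ j, bet (f k + h i + g j) := by
    rw [sum_comm]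
    exact sum_congr rfl fun i _ => sum_congr rfl fun j _ => by congr 1; ring
  rw [e2]
  ring

section gen

variable {X : Type*} [Fintype X] [DecidableEq X]

/-- The quadratic inequality at the three points `p x` of `X`, the others being scalar. -/
def DPos (p : Fin 3 → X) (l0 : Fin n) (z : X → Fin n → ℝ) : Prop :=
  ∀ x y w : Fin 3, x ≠ y → y ≠ w → x ≠ w → ∀ k, 0 ≤ DK (z (p x)) (z (p y))
    (fun l => z (p w) l + ∑ q ∈ ((univ.erase (p x)).erase (p y)).erase (p w), z q l0) k

lemma sum_split {M : Type*} [AddCommGroup M] {a b c : X} (hab : a ≠ b) (hbc : b ≠ c) (hac : a ≠ c)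
    (F : X → M) : ∑ x, F x = F a + F b + F c + ∑ q ∈ ((univ.erase a).erase b).erase c, F q := by
  rw [← add_sum_erase univ F (mem_univ a), ← add_sum_erase (univ.erase a) F
    (mem_erase.2 ⟨hab.symm, mem_univ b⟩), ← add_sum_erase ((univ.erase a).erase b) F
    (mem_erase.2 ⟨hbc.symm, mem_erase.2 ⟨hac.symm, mem_univ c⟩⟩)]
  abel

lemma dk_close (S : Seq X n) (F : Ultrafilter ℕ) (hF : (F : Filter ℕ) ≤ atTop) [Nonempty X]
    (hn : 0 < n) {p : Fin 3 → X} (hp : Function.Injective p) (l0 : Fin n)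
    (hD : ∀ᶠ j in (F : Filter ℕ), ∀ a : ℤ, IsCoprime a (S.N j : ℤ) →
      DPos p l0 fun x l => (a : ℝ) * S.e j x l)
    {y : X × Fin n → ℝ} (hy : S.Ann F y) : DPos p l0 fun x l => y (x, l) := by
  intro x y' w hxy hyw hxw k
  by_contra hcon
  push Not at hcon
  have hab : p x ≠ p y' := fun e => hxy (hp e)
  have hbc : p y' ≠ p w := fun e => hyw (hp e)
  have hac : p x ≠ p w := fun e => hxw (hp e)
  obtain ⟨G, hGdef⟩ : ∃ G : (X × Fin n → ℝ) → ℝ, ∀ z, G z = DK (fun l => z (p x, l))
      (fun l => z (p y', l)) (fun l => z (p w, l) +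
        ∑ q ∈ ((univ.erase (p x)).erase (p y')).erase (p w), z (q, l0)) k := ⟨_, fun z => rfl⟩
  have hG : Continuous G := by
    rw [funext hGdef]
    have hb := continuous_bet
    unfold DK
    fun_prop
  have hopen : IsOpen (G ⁻¹' Set.Iio 0) := isOpen_Iio.preimage hG
  have hmem : y ∈ G ⁻¹' Set.Iio 0 := by
    rw [Set.mem_preimage, hGdef]
    exact hcon
  obtain ⟨δ, hδ, hball⟩ := Metric.isOpen_iff.1 hopen y hmem
  obtain ⟨j, ⟨⟨a, ha, -, ww, hw⟩, ⟨K, hK⟩⟩, hDj⟩ :=
    (((S.apx F hF hn hy hδ).and (S.eps_int F hF hn)).and hD).exists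
  have hz := hDj a ha x y' w hxy hyw hxw k
  have hy1 : (fun t : X × Fin n => (a : ℝ) * S.E j t.1 t.2 - ww t.1 t.2) ∈ Metric.ball y δ := by
    rw [Metric.mem_ball, dist_pi_lt_iff hδ]
    intro t
    rw [Real.dist_eq]
    have h1 := hw t.1 t.2
    have h2 : (a : ℝ) * S.E j t.1 t.2 - ww t.1 t.2 - y t =
        (a : ℝ) * S.E j t.1 t.2 - y (t.1, t.2) - ww t.1 t.2 := by ring
    rw [h2]
    exact h1
  have hy2 := hball hy1
  rw [Set.mem_preimage, hGdef, Set.mem_Iio] at hy2
  have hK' : ∑ x, (S.ε j x : ℝ) = K := by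
    have := congrArg (fun r : ℚ => (r : ℝ)) hK
    push_cast at this
    exact this
  have hspl := sum_split hab hbc hac (fun x => (S.ε j x : ℝ))
  -- compare the two values
  have e1 : ∀ q l, (a : ℝ) * S.e j q l = ((a : ℝ) * S.E j q l - ww q l) + a * S.ε j q + ww q l := by
    intro q l
    rw [S.he]
    push_cast
    ring
  have e2 : DK (fun l => (a : ℝ) * S.e j (p x) l) (fun l => (a : ℝ) * S.e j (p y') l)
      (fun l => (a : ℝ) * S.e j (p w) l +
        ∑ q ∈ ((univ.erase (p x)).erase (p y')).erase (p w), (a : ℝ) * S.e j q l0) k =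
      DK (fun l => ((a : ℝ) * S.E j (p x) l - ww (p x) l) + a * S.ε j (p x))
        (fun l => ((a : ℝ) * S.E j (p y') l - ww (p y') l) + a * S.ε j (p y'))
        (fun l => (((a : ℝ) * S.E j (p w) l - ww (p w) l) +
          ∑ q ∈ ((univ.erase (p x)).erase (p y')).erase (p w),
            ((a : ℝ) * S.E j q l0 - ww q l0)) +
          (a * S.ε j (p w) + ∑ q ∈ ((univ.erase (p x)).erase (p y')).erase (p w),
            a * S.ε j q)) k := by
    refine DK_int (fun l => ⟨ww (p x) l, ?_⟩) (fun l => ⟨ww (p y') l, ?_⟩)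
      (fun l => ⟨ww (p w) l + ∑ q ∈ ((univ.erase (p x)).erase (p y')).erase (p w), ww q l0, ?_⟩) k
    · exact e1 _ _
    · exact e1 _ _
    · rw [e1, sum_congr rfl fun q _ => e1 q l0, sum_add_distrib, sum_add_distrib]
      push_cast
      ring
  have e3 : (a : ℝ) * S.ε j (p x) + a * S.ε j (p y') + (a * S.ε j (p w) +
      ∑ q ∈ ((univ.erase (p x)).erase (p y')).erase (p w), a * S.ε j q) =
      ((a * K : ℤ) : ℝ) := by
    push_cast
    rw [← hK', hspl, ← mul_sum]
    ring
  rw [e2, DK_add, e3, DK_int (f' := fun l => (a : ℝ) * S.E j (p x) l - ww (p x) l)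
    (g' := fun l => (a : ℝ) * S.E j (p y') l - ww (p y') l)
    (h' := fun l => ((a : ℝ) * S.E j (p w) l - ww (p w) l) +
          ∑ q ∈ ((univ.erase (p x)).erase (p y')).erase (p w),
            ((a : ℝ) * S.E j q l0 - ww q l0))
    (fun l => ⟨0, by push_cast; ring⟩) (fun l => ⟨0, by push_cast; ring⟩)
    (fun l => ⟨a * K, rfl⟩)] at hz
  exact absurd hz (not_le.2 hy2)

end gen

end Pool.Agent.N858.R4
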