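import Pool.Agent.N858.R4.Close
import Pool.Agent.N858.P5.AbsFive

set_option autoImplicit false

/-!
Exponents with rough denominators and at most three non-scalar points, with a condition on the
multiplicities: if all conjugates satisfy the inequalities, then there is a resonance.
-/

open Finset Filter

namespace Pool.Agent.N858.R4

open Pool.Agent.N858.PC
open Pool.Agent.N858.P5 (common_den)

variable {X : Type*} [Fintype X] [DecidableEq X] {n : ℕ}

/-- The relation of a choice of exponents. -/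
def del (κ : X → Fin n) (t : X × Fin n) : ℤ := if t.2 = κ t.1 then 1 else 0

omit [DecidableEq X] in
lemma sum_del {R : Type*} [AddCommMonoid R] (κ : X → Fin n) (f : X × Fin n → R) :
    ∑ t, (if t.2 = κ t.1 then f t else 0) = ∑ x, f (x, κ x) := by
  rw [Fintype.sum_prod_type]
  refine sum_congr rfl fun x _ => ?_
  rw [sum_eq_single (κ x)]
  · simp
  · intro l _ hl
    simp [hl]
  · simp

lemma Crit_congr {r r' : Fin 3 → Fin n → Fin n → Prop} [∀ x i j, Decidable (r x i j)]
    [∀ x i j, Decidable (r' x i j)] (h : ∀ x i j, r x i j ↔ r' x i j) (hC : Crit r) : Crit r' := by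
  have e1 : ∀ x, pr (r x) = pr (r' x) := fun x => pr_congr (h x)
  have e2 : ∀ x k, mu (r x) k = mu (r' x) k := fun x k => mu_congr (h x) k
  unfold Crit at hC ⊢
  simp only [e1, e2, h] at hC
  exact hC

lemma cl_sub (S : Seq X n) (F : Ultrafilter ℕ) (x : X) (i j : Fin n) :
    S.cl F (x, i) = S.cl F (x, j) ↔
      (fun t => ((Pi.single (x, i) 1 - Pi.single (x, j) 1 : X × Fin n → ℤ) t : ℚ)) ∈ S.U F := by
  have h1 : (fun t => ((Pi.single (x, i) 1 - Pi.single (x, j) 1 : X × Fin n → ℤ) t : ℚ)) =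
      Pi.single (x, i) 1 - Pi.single (x, j) 1 := by
    funext t
    simp only [Pi.sub_apply]
    push_cast
    congr 1
    · by_cases hi : t = (x, i)
      · subst hi; simp
      · simp [Pi.single_eq_of_ne hi]
    · by_cases hi : t = (x, j)
      · subst hi; simp
      · simp [Pi.single_eq_of_ne hi]
  rw [h1]
  unfold Seq.cl
  rw [← sub_eq_zero, ← map_sub, Submodule.mkQ_apply, Submodule.Quotient.mk_eq_zero]

/-- The classes of two exponents at a point agree if and only if the exponents agree modulo the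
integers. -/
lemma cl_eq_iff (S : Seq X n) (F : Ultrafilter ℕ) (hF : (F : Filter ℕ) ≤ atTop) (x : X)
    (i j : Fin n) : S.cl F (x, i) = S.cl F (x, j) ↔
      ∀ᶠ N in (F : Filter ℕ), ∃ w : ℤ, S.e N x i - S.e N x j = w := by
  have e1 : ∀ N, ∑ t, (((Pi.single (x, i) 1 - Pi.single (x, j) 1 : X × Fin n → ℤ) t : ℤ) : ℚ) *
      S.E N t.1 t.2 = S.e N x i - S.e N x j := by
    intro N
    have e1 : ∀ t : X × Fin n, (((Pi.single (x, i) 1 - Pi.single (x, j) 1 : X × Fin n → ℤ) t : ℤ) : ℚ) *
        S.E N t.1 t.2 = (if t = (x, i) then S.E N t.1 t.2 else 0) -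
          (if t = (x, j) then S.E N t.1 t.2 else 0) := by
      intro t
      simp only [Pi.sub_apply, Pi.single_apply]
      split_ifs <;> simp
    rw [sum_congr rfl fun t _ => e1 t, sum_sub_distrib, sum_ite_eq', sum_ite_eq',
      if_pos (mem_univ _), if_pos (mem_univ _), S.he, S.he]
    ring
  rw [cl_sub]
  constructor
  · intro h
    obtain ⟨d, hd, c, hc, hdc⟩ := S.clear F h
    have h1 : (Pi.single (x, i) 1 - Pi.single (x, j) 1 : X × Fin n → ℤ) ∈ S.R F := by
      refine rel_sat hF (q := S.q) (E := fun j (t : X × Fin n) => S.E j t.1 t.2)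
        (fun j i => S.hE j i.1 i.2) S.rough (d := d) hd ?_
      have : (fun t : X × Fin n => (d : ℤ) *
          (Pi.single (x, i) 1 - Pi.single (x, j) 1 : X × Fin n → ℤ) t) = c := by
        funext t
        have := hdc t
        exact_mod_cast this
      rw [this]
      exact hc
    filter_upwards [mem_rel.1 h1] with N hN
    obtain ⟨w, hw⟩ := hN
    exact ⟨w, by rw [← e1 N, hw]⟩
  · intro h
    refine Submodule.subset_span ⟨_, ?_, rfl⟩
    refine mem_rel.2 ?_
    filter_upwards [h] with N hN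
    obtain ⟨w, hw⟩ := hN
    exact ⟨w, by rw [e1 N, hw]⟩

open Classical in
/-- The resonance in the lattice of relations. -/
lemma exists_del [Nonempty X] (S : Seq X n) (F : Ultrafilter ℕ) (hF : (F : Filter ℕ) ≤ atTop)
    (hn : 0 < n) {p : Fin 3 → X} (hp : Function.Injective p) (l0 : Fin n)
    (hD : ∀ᶠ j in (F : Filter ℕ), ∀ a : ℤ, IsCoprime a (S.N j : ℤ) →
      DPos p l0 fun x l => (a : ℝ) * S.e j x l)
    (hsc : ∀ x, (∀ i, x ≠ p i) → ∀ l, S.cl F (x, l) = S.cl F (x, l0))
    (hC : Crit fun x i j => S.cl F (p x, i) = S.cl F (p x, j)) :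
    ∃ κ : X → Fin n, del κ ∈ S.R F := by
  by_contra hno
  push Not at hno
  have hne : ∀ κ : X → Fin n, ∑ x, S.cl F (x, κ x) ≠ 0 := by
    intro κ h
    have h1 : (fun t => (del κ t : ℚ)) ∈ S.U F := by
      rw [← Submodule.ker_mkQ (S.U F), LinearMap.mem_ker, ← S.sum_cl F, ← h,
        ← sum_del κ (fun t => S.cl F t)]
      refine sum_congr rfl fun t _ => ?_
      unfold del
      split_ifs <;> simp
    obtain ⟨d, hd, c, hc, hdc⟩ := S.clear F h1
    apply hno κ
    refine rel_sat hF (q := S.q) (E := fun j (t : X × Fin n) => S.E j t.1 t.2)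
      (fun j i => S.hE j i.1 i.2) S.rough (d := d) hd ?_
    have : (fun i : X × Fin n => (d : ℤ) * del κ i) = c := by
      funext t
      have := hdc t
      exact_mod_cast this
    rw [this]
    exact hc
  obtain ⟨f, hf⟩ := Module.exists_dual_forall_apply_ne_zero (K := ℚ)
    (Sum.elim (fun κ : X → Fin n => ∑ x, S.cl F (x, κ x))
      (fun t : {t : Fin 3 × Fin n × Fin n //
        S.cl F (p t.1, t.2.1) ≠ S.cl F (p t.1, t.2.2)} =>
        S.cl F (p t.1.1, t.1.2.1) - S.cl F (p t.1.1, t.1.2.2))) (by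
      rintro (κ | t)
      · exact hne κ
      · exact sub_ne_zero.2 t.2)
  have hf1 : ∀ κ : X → Fin n, f (∑ x, S.cl F (x, κ x)) ≠ 0 := fun κ => hf (Sum.inl κ)
  have hf2 : ∀ (x : Fin 3) (i j : Fin n), f (S.cl F (p x, i)) = f (S.cl F (p x, j)) →
      S.cl F (p x, i) = S.cl F (p x, j) := by
    intro x i j h
    by_contra hcon
    apply hf (Sum.inr ⟨(x, i, j), hcon⟩)
    show f (S.cl F (p x, i) - S.cl F (p x, j)) = 0
    rw [map_sub, h, sub_self]
  obtain ⟨m, V, hm, hV⟩ := common_den fun t : X × Fin n => f (S.cl F t)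
  have hm' : (0 : ℚ) < m := by exact_mod_cast hm
  -- the trace
  have htr : ∑ x, ∑ l, V (x, l) = 0 := by
    have h1 : ∑ t : X × Fin n, f (S.cl F t) = 0 := by
      have h2 : (fun _ => (1 : ℚ)) ∈ S.U F :=
        Submodule.subset_span ⟨_, S.trace_mem F, by simp⟩
      rw [← Submodule.ker_mkQ (S.U F), LinearMap.mem_ker, ← S.sum_cl F] at h2
      have h3 := congrArg f h2
      simpa [map_sum] using h3
    have h2 : ∑ t : X × Fin n, (V t : ℚ) = 0 := by
      rw [← mul_zero (m : ℚ), ← h1, mul_sum]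
      exact sum_congr rfl fun t _ => (hV t).symm
    have h3 : ∑ t : X × Fin n, V t = 0 := by exact_mod_cast h2
    rwa [Fintype.sum_prod_type] at h3
  have hVeq : ∀ x i j, S.cl F (x, i) = S.cl F (x, j) → V (x, i) = V (x, j) := by
    intro x i j h
    have h1 : (V (x, i) : ℚ) = V (x, j) := by rw [← hV, ← hV, h]
    exact_mod_cast h1
  have hAnn : ∀ t : ℝ, S.Ann F (fun i => t * (V i : ℝ)) := by
    intro t c hc
    refine ⟨0, ?_⟩
    rw [Int.cast_zero, ← S.ann_of_form F f (t * m) c hc]
    refine sum_congr rfl fun i _ => ?_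
    have h1 : ((m : ℚ) : ℝ) * ((f (S.cl F i) : ℚ) : ℝ) = ((V i : ℚ) : ℝ) := by
      exact_mod_cast congrArg (fun r : ℚ => (r : ℝ)) (hV i)
    push_cast at h1
    show (c i : ℝ) * (t * (V i : ℝ)) = _
    rw [← h1]
    ring
  -- the scalar points
  have h01 : p 0 ≠ p 1 := fun e => absurd (hp e) (by decide)
  have h12 : p 1 ≠ p 2 := fun e => absurd (hp e) (by decide)
  have h02 : p 0 ≠ p 2 := fun e => absurd (hp e) (by decide)
  set O : Finset X := ((univ.erase (p 0)).erase (p 1)).erase (p 2) with hO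
  have hmO : ∀ q, q ∈ O ↔ ∀ i, q ≠ p i := by
    intro q
    simp only [hO, mem_erase, mem_univ, and_true]
    constructor
    · rintro ⟨a, b, c⟩ i
      fin_cases i
      · exact c
      · exact b
      · exact a
    · intro h
      exact ⟨h 2, h 1, h 0⟩
  have hOO : ∀ x y w : Fin 3, x ≠ y → y ≠ w → x ≠ w →
      ((univ.erase (p x)).erase (p y)).erase (p w) = O := by
    intro x y w hxy hyw hxw
    ext q
    rw [hmO]
    simp only [mem_erase, mem_univ, and_true]
    constructor
    · rintro ⟨a, b, c⟩ i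
      have : i = x ∨ i = y ∨ i = w := by
        clear a b c
        revert x y w i
        decide
      rcases this with e | e | e <;> rw [e] <;> assumption
    · intro h
      exact ⟨h w, h y, h x⟩
  have hVO : ∀ q ∈ O, ∀ l, V (q, l) = V (q, l0) := fun q hq l =>
    hVeq q l l0 (hsc q ((hmO q).1 hq) l)
  set s : ℤ := ∑ q ∈ O, V (q, l0) with hs
  set sft : Fin 3 → ℤ := fun x => if x = 2 then s else 0 with hsft
  set v : Fin 3 → Fin n → ℤ := fun x l => V (p x, l) + sft x with hv
  have hsfts : ∑ x, sft x = s := by simp [hsft]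
  have hXsum : ∀ (G : X → ℤ), ∑ x, G x = ∑ x : Fin 3, G (p x) + ∑ q ∈ O, G q := by
    intro G
    rw [sum_split h01 h12 h02, Fin.sum_univ_three]
  have hsum : ∑ x, ∑ l, v x l = 0 := by
    rw [hXsum] at htr
    simp only [hv, sum_add_distrib, sum_const, card_univ, Fintype.card_fin, nsmul_eq_mul, ← mul_sum,
      hsfts]
    rw [sum_congr rfl fun q hq => sum_congr rfl fun l _ => hVO q hq l] at htr
    simp only [sum_const, card_univ, Fintype.card_fin, nsmul_eq_mul, ← mul_sum] at htr
    linarith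
  -- choices
  let ext : (Fin 3 → Fin n) → X → Fin n := fun κ x => if x = p 0 then κ 0 else
    if x = p 1 then κ 1 else if x = p 2 then κ 2 else l0
  have hext : ∀ κ x, ext κ (p x) = κ x := by
    intro κ x
    fin_cases x
    · simp [ext]
    · simp [ext, h01.symm]
    · simp [ext, h02.symm, h12.symm]
  have hextO : ∀ κ, ∀ q ∈ O, ext κ q = l0 := by
    intro κ q hq
    have := (hmO q).1 hq
    simp [ext, this 0, this 1, this 2]
  have hκ : ∀ κ : Fin 3 → Fin n, ∑ x, V (x, ext κ x) = ∑ x, v x (κ x) := by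
    intro κ
    rw [hXsum]
    simp only [hext, hv, sum_add_distrib, hsfts]
    congr 1
    rw [hs]
    exact sum_congr rfl fun q hq => by rw [hextO κ q hq]
  obtain ⟨κ, hκ0⟩ := core hn v hsum (by
    intro t κ hpos
    have h1 := S.good F hF hn (hAnn t) (fun x => t * (V (x, ext κ x) : ℝ)) (by
      rw [← mul_sum]
      have : (∑ x, (V (x, ext κ x) : ℝ)) = ((∑ x, v x (κ x) : ℤ) : ℝ) := by
        rw [← hκ]; push_cast; rfl
      rw [this]
      exact hpos)
    have h2 : ∑ x, ∑ l, t * (V (x, l) : ℝ) = 0 := by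
      simp only [← mul_sum]
      have : ((∑ x, ∑ l, V (x, l) : ℤ) : ℝ) = 0 := by rw [htr]; simp
      push_cast at this
      rw [this, mul_zero]
    simp only at h1
    rw [h2] at h1
    have h3 : ∑ x, ∑ l, ⌊t * (V (x, l) : ℝ) - t * (V (x, ext κ x) : ℝ)⌋ + (n : ℤ) ≤ 0 := by
      exact_mod_cast h1
    rw [hXsum] at h3
    have h4 : ∑ q ∈ O, ∑ l, ⌊t * (V (q, l) : ℝ) - t * (V (q, ext κ q) : ℝ)⌋ = 0 := by
      refine sum_eq_zero fun q hq => sum_eq_zero fun l _ => ?_
      rw [hextO κ q hq, hVO q hq l, sub_self, Int.floor_zero]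
    rw [h4, add_zero] at h3
    refine le_trans (le_of_eq ?_) h3
    congr 1
    refine sum_congr rfl fun x _ => sum_congr rfl fun l _ => ?_
    rw [hext]
    simp only [hv]
    congr 1
    push_cast
    ring) (by
    intro x y w hxy hyw hxw k t
    have h1 := dk_close S F hF hn hp l0 hD (hAnn t) x y w hxy hyw hxw k
    have h2 : (sft x : ℝ) + sft y + sft w = s := by
      have := sum3 hxy hyw hxw sft
      rw [hsfts] at this
      rw [this]
      push_cast
      ring
    have e1 : DK (fun l => t * (v x l : ℝ)) (fun l => t * (v y l : ℝ)) (fun l => t * (v w l : ℝ)) k =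
        DK (fun l => t * (V (p x, l) : ℝ)) (fun l => t * (V (p y, l) : ℝ))
          (fun l => t * (V (p w, l) : ℝ) + ∑ q ∈ ((univ.erase (p x)).erase (p y)).erase (p w),
            t * (V (q, l0) : ℝ)) k := by
      have e2 : ∀ x : Fin 3, (fun l => t * (v x l : ℝ)) =
          fun l => t * (V (p x, l) : ℝ) + t * (sft x : ℝ) := by
        intro x
        funext l
        simp only [hv]
        push_cast
        ring
      rw [e2, e2, e2, DK_add, hOO x y w hxy hyw hxw, ← mul_sum]
      have e3 : t * (sft x : ℝ) + t * sft y + t * sft w = t * ∑ q ∈ O, (V (q, l0) : ℝ) := by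
        rw [← mul_add, ← mul_add, h2, hs]
        push_cast
        rfl
      rw [e3]
    rw [e1]
    exact h1) (Crit_congr (fun x i j => by
      simp only [hv, add_left_inj]
      constructor
      · exact hVeq _ _ _
      · intro h
        apply hf2
        have h1 : (m : ℚ) * f (S.cl F (p x, i)) = m * f (S.cl F (p x, j)) := by
          rw [hV, hV, h]
        exact mul_left_cancel₀ hm'.ne' h1) hC)
  apply hf1 (ext κ)
  rw [map_sum]
  have h1 : (m : ℚ) * ∑ x, f (S.cl F (x, ext κ x)) = 0 := by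
    rw [mul_sum, sum_congr rfl fun x _ => hV _]
    have := hκ κ
    rw [hκ0] at this
    exact_mod_cast this
  rcases mul_eq_zero.1 h1 with h | h
  · exact absurd h hm'.ne'
  · exact h

end Pool.Agent.N858.R4
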