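import Pool.Agent.N858.R4.Point

set_option autoImplicit false

/-!
The quadratic inequality for three points, all the other points being scalar.
-/

open Finset

namespace Pool.Agent.N858.R4

open Pool.Agent.Y227.SS
open Pool.Agent.N858.P5 (bet bet_add_int bet_int bet_neg)

variable {m n : ℕ}

/-- The numbers `z x l` (infinity is the point `none`) are the weights of a semistable parabolic
bundle. -/
def SSW (z : Option (Fin m) → Fin n → ℝ) : Prop :=
  SemistableWeights ℂ (fun j l => z (some j) l) (fun l => -z none l)

lemma SSW.congr {z z' : Option (Fin m) → Fin n → ℝ} (h : SSW z)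
    (hz : ∀ p l, ∃ w : ℤ, z p l = z' p l + w) : SSW z' := by
  refine semiWeights_congr h (fun j l => hz _ l) fun l => ?_
  obtain ⟨w, hw⟩ := hz none l
  exact ⟨-w, by rw [hw]; push_cast; ring⟩

lemma SSW.shift {z : Option (Fin m) → Fin n → ℝ} (h : SSW z) (j0 : Fin m) (t : ℝ) :
    SSW (fun p l => z p l + if p = some j0 then t else if p = none then -t else 0) := by
  refine semiWeights_congr (semiWeights_shift h j0 t) (fun j l => ⟨0, ?_⟩) fun l => ⟨0, ?_⟩
  · by_cases hj : j = j0
    · simp [hj]
    · simp [hj]
  · simp only [reduceCtorEq, if_false, if_true, Int.cast_zero]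
    ring

/-- The shifts at a set of finite points and at infinity. -/
noncomputable def sh (T : Finset (Fin m)) (s : Fin m → ℝ) : Option (Fin m) → ℝ
  | some j => if j ∈ T then s j else 0
  | none => -∑ j ∈ T, s j

lemma SSW.shift_all {z : Option (Fin m) → Fin n → ℝ} (h : SSW z) (s : Fin m → ℝ)
    (T : Finset (Fin m)) : SSW (fun p l => z p l + sh T s p) := by
  classical
  induction T using Finset.induction_on with
  | empty =>
    refine h.congr fun p l => ⟨0, ?_⟩
    rcases p with _ | j <;> simp [sh]
  | insert j0 T hj0 ih =>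
    refine (ih.shift j0 (s j0)).congr fun p l => ⟨0, ?_⟩
    rcases p with _ | j
    · simp only [sh, reduceCtorEq, if_false, if_true, sum_insert hj0]
      push_cast
      ring
    · simp only [sh, Option.some.injEq, reduceCtorEq, if_false, mem_insert]
      by_cases hj : j = j0
      · subst hj
        simp [hj0]
      · simp [hj]

lemma SSW.swap {z : Option (Fin m) → Fin n → ℝ} (h : SSW z) (j0 : Fin m) :
    SSW (fun p => z (Equiv.swap none (some j0) p)) := by
  refine semiWeights_congr (semiWeights_swap h j0) (fun j l => ⟨0, ?_⟩) fun l => ⟨0, ?_⟩ <;>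
    beta_reduce
  · by_cases hj : j = j0
    · subst hj
      simp [Equiv.swap_apply_right]
    · rw [Function.update_of_ne hj, Equiv.swap_apply_of_ne_of_ne (by simp) (by simp [hj])]
      simp
  · rw [Equiv.swap_apply_left]
    simp

/-- Infinity can be exchanged with any point. -/
lemma SSW.swap' {z : Option (Fin m) → Fin n → ℝ} (h : SSW z) (c : Option (Fin m)) :
    SSW (fun p => z (Equiv.swap none c p)) := by
  rcases c with _ | j0
  · rw [Equiv.swap_self]
    exact h
  · exact h.swap j0

/-- The inequality for three points, one of them at infinity. -/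
lemma dk_aux {z : Option (Fin m) → Fin n → ℝ} (h : SSW z) {N : ℕ} (hN : 0 < N)
    (hz : ∀ p l, ∃ w : ℤ, (N : ℝ) * z p l = w) {a b : Fin m} (hab : a ≠ b) (l0 : Fin n)
    (hsc : ∀ j, j ≠ a → j ≠ b → ∀ l, ∃ w : ℤ, z (some j) l - z (some j) l0 = w) (k : Fin n) :
    0 ≤ DK (z (some a)) (z (some b))
      (fun l => z none l + ∑ j ∈ (univ.erase a).erase b, z (some j) l0) k := by
  classical
  set T : Finset (Fin m) := (univ.erase a).erase b with hT
  have h1 := h.shift_all (fun j => -z (some j) l0) T
  let ι : Fin 2 ↪ Fin m := ⟨fun i => if i = 0 then a else b, by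
    intro i j hij
    fin_cases i <;> fin_cases j
    · rfl
    · exact absurd hij hab
    · exact absurd hij.symm hab
    · rfl⟩
  have hι0 : ι 0 = a := rfl
  have hι1 : ι 1 = b := rfl
  have haT : a ∉ T := by simp [hT]
  have hbT : b ∉ T := by simp [hT]
  have h2 := semiWeights_drop h1 ι (by
    intro j hj l
    have hja : j ≠ a := fun e => hj ⟨0, by rw [hι0, e]⟩
    have hjb : j ≠ b := fun e => hj ⟨1, by rw [hι1, e]⟩
    have hjT : j ∈ T := by simp [hT, hja, hjb]
    obtain ⟨w, hw⟩ := hsc j hja hjb l
    refine ⟨w, ?_⟩
    show z (some j) l + sh T (fun j => -z (some j) l0) (some j) = w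
    simp only [sh, if_pos hjT]
    linarith)
  choose w hw using hz
  have hNr : (N : ℝ) ≠ 0 := by exact_mod_cast hN.ne'
  have hw' : ∀ p l, z p l = (w p l : ℝ) / N := fun p l => by
    rw [eq_div_iff hNr, mul_comm]; exact hw p l
  set S : ℤ := ∑ j ∈ T, w (some j) l0 with hS
  have hSr : ∑ j ∈ T, z (some j) l0 = (S : ℝ) / N := by
    rw [hS]
    push_cast
    rw [sum_div]
    exact sum_congr rfl fun j _ => hw' _ _
  have h3 : SemistableWeights ℂ
      (fun (j : Fin 2) l => if j = 0 then (w (some a) l : ℝ) / N else (w (some b) l : ℝ) / N)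
      (fun l => -(((w none l + S : ℤ) : ℝ) / N)) := by
    refine semiWeights_congr h2 (fun j l => ⟨0, ?_⟩) fun l => ⟨0, ?_⟩
    · fin_cases j
      · show z (some a) l + sh T _ (some a) = _
        simp only [sh, if_neg haT, hw']
        simp
      · show z (some b) l + sh T _ (some b) = _
        simp only [sh, if_neg hbT, hw']
        simp
    · show -(z none l + sh T (fun j => -z (some j) l0) none) = _
      simp only [sh, sum_neg_distrib, neg_neg]
      rw [hSr, hw']
      push_cast
      ring
  have h4 := base hN _ _ _ h3 k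
  have e1 : (fun l => (w (some a) l : ℝ) / N) = z (some a) := funext fun l => (hw' _ l).symm
  have e2 : (fun l => (w (some b) l : ℝ) / N) = z (some b) := funext fun l => (hw' _ l).symm
  have e3 : (fun l => ((w none l + S : ℤ) : ℝ) / N) =
      fun l => z none l + ∑ j ∈ T, z (some j) l0 := funext fun l => by
    rw [hSr, hw']
    push_cast
    ring
  rw [e1, e2, e3] at h4
  exact h4

/-- **The inequality for three points.** -/
theorem dk_nonneg {z : Option (Fin m) → Fin n → ℝ} (h : SSW z) {N : ℕ} (hN : 0 < N)
    (hz : ∀ p l, ∃ w : ℤ, (N : ℝ) * z p l = w) {a b c : Option (Fin m)} (hab : a ≠ b)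
    (hac : a ≠ c) (hbc : b ≠ c) (l0 : Fin n)
    (hsc : ∀ p, p ≠ a → p ≠ b → p ≠ c → ∀ l, ∃ w : ℤ, z p l - z p l0 = w) (k : Fin n) :
    0 ≤ DK (z a) (z b)
      (fun l => z c l + ∑ p ∈ ((univ.erase a).erase b).erase c, z p l0) k := by
  classical
  set σ := Equiv.swap none c with hσ
  have hσσ : ∀ p, σ (σ p) = p := Equiv.swap_apply_self _ _
  have hσc : σ c = none := Equiv.swap_apply_right _ _
  have hσn : σ none = c := Equiv.swap_apply_left _ _
  have h1 := h.swap' c
  obtain ⟨a', ha'⟩ : ∃ a', σ a = some a' := by
    rcases ha : σ a with _ | a'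
    · exfalso
      apply hac
      rw [← hσσ a, ha, hσn]
    · exact ⟨a', rfl⟩
  obtain ⟨b', hb'⟩ : ∃ b', σ b = some b' := by
    rcases ha : σ b with _ | a'
    · exfalso
      apply hbc
      rw [← hσσ b, ha, hσn]
    · exact ⟨a', rfl⟩
  have hab' : a' ≠ b' := by
    intro e
    apply hab
    rw [← hσσ a, ha', e, ← hb', hσσ]
  have hσa : σ (some a') = a := by rw [← ha', hσσ]
  have hσb : σ (some b') = b := by rw [← hb', hσσ]
  have h2 := dk_aux h1 hN (fun p l => hz (σ p) l) hab' l0 (fun j hja hjb l => by
    refine hsc (σ (some j)) ?_ ?_ ?_ l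
    · intro e
      apply hja
      have : some j = some a' := by rw [← ha', ← e, hσσ]
      exact Option.some.inj this
    · intro e
      apply hjb
      have : some j = some b' := by rw [← hb', ← e, hσσ]
      exact Option.some.inj this
    · intro e
      have : some j = none := by rw [← hσc, ← e, hσσ]
      exact absurd this (by simp)) k
  have e1 : (fun p => z (σ p)) (some a') = z a := by simp only [hσa]
  have e2 : (fun p => z (σ p)) (some b') = z b := by simp only [hσb]
  have e3 : (fun p => z (σ p)) none = z c := by simp only [hσn]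
  have e4 : ∑ j ∈ (univ.erase a').erase b', z (σ (some j)) l0 =
      ∑ p ∈ ((univ.erase a).erase b).erase c, z p l0 := by
    refine sum_bij (fun j _ => σ (some j)) ?_ ?_ ?_ ?_
    · intro j hj
      simp only [mem_erase, mem_univ, and_true] at hj ⊢
      refine ⟨?_, ?_, ?_⟩
      · intro e
        have : some j = none := by rw [← hσc, ← e, hσσ]
        exact absurd this (by simp)
      · intro e
        apply hj.1
        have : some j = some b' := by rw [← hb', ← e, hσσ]
        exact Option.some.inj this
      · intro e
        apply hj.2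
        have : some j = some a' := by rw [← ha', ← e, hσσ]
        exact Option.some.inj this
    · intro i _ j _ hij
      exact Option.some.inj (σ.injective hij)
    · intro p hp
      simp only [mem_erase, mem_univ, and_true] at hp
      rcases hq : σ p with _ | j
      · exfalso
        apply hp.1
        rw [← hσσ p, hq, hσn]
      · refine ⟨j, ?_, by rw [← hq, hσσ]⟩
        simp only [mem_erase, mem_univ, and_true]
        refine ⟨?_, ?_⟩
        · intro e
          apply hp.2.1
          rw [← hσσ p, hq, e, hσb]
        · intro e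
          apply hp.2.2
          rw [← hσσ p, hq, e, hσa]
    · intro j _
      rfl
  have h3 : 0 ≤ DK ((fun p => z (σ p)) (some a')) ((fun p => z (σ p)) (some b'))
      (fun l => (fun p => z (σ p)) none l +
        ∑ j ∈ (univ.erase a').erase b', z (σ (some j)) l0) k := h2
  rw [e1, e2, e3, e4] at h3
  exact h3

end Pool.Agent.N858.R4
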