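import Pool.Agent.N858.R4.Abs4
import Pool.Agent.N858.R4.Multi
import Pool.Agent.N858.PC.Glue

set_option autoImplicit false

/-!
Exponents with rough denominators and at most three non-scalar points: if all conjugates are the
weights of semistable parabolic bundles, then there is a resonance, under a condition on the
multiplicities which always holds in rank at most four.
-/

open Finset Filter

namespace Pool.Agent.N858.R4

open Pool.Agent.N858.PC
open Pool.Agent.N858.P5 (common_den)

open Classical in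
/-- Resonance. -/
theorem abs_crit (X : Type*) [Fintype X] [DecidableEq X] [Nonempty X] (n : ℕ) (hn : 0 < n) :
    ∃ B : ℕ, ∀ (e : X → Fin n → ℚ) (q N : ℕ) (p : Fin 3 → X), Function.Injective p →
      0 < q → 0 < N →
      (∀ p : ℕ, p.Prime → p ∣ q → B < p) →
      (∀ x l l', ∃ w : ℤ, (q : ℚ) * (e x l - e x l') = w) →
      (∃ w : ℤ, ∑ x, ∑ l, e x l = w) →
      (∀ a : ℤ, IsCoprime a (N : ℤ) → LineSS fun x l => (a : ℝ) * e x l) →
      (∀ a : ℤ, IsCoprime a (N : ℤ) → DPos p ⟨0, hn⟩ fun x l => (a : ℝ) * e x l) →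
      (∀ x, (∀ i, x ≠ p i) → ∀ l l', ∃ z : ℤ, e x l - e x l' = z) →
      Crit (fun x i j => ∃ w : ℤ, e (p x) i - e (p x) j = w) →
      ∃ (κ : X → Fin n) (w : ℤ), ∑ x, e x (κ x) = w := by
  by_contra hcon
  push Not at hcon
  choose e q N p hp hq hN hrough hd ht hSS hDP hsc hC hfail using fun j : ℕ => hcon (j + n)
  have hnorm : ∀ j, ∃ (E : X → Fin n → ℚ) (ε : X → ℚ), (∀ x l, e j x l = E x l + ε x) ∧
      (∀ x l, ∃ z : ℤ, (q j : ℚ) * E x l = z) ∧ ∃ k : ℤ, (n : ℚ) * ∑ x, ε x = k := fun j =>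
    normalize hn (hq j) (coprime_rough (hrough j) hn (by omega)) (hd j) (ht j)
  choose E ε he hE hε using hnorm
  let S : Seq X n :=
    { e := e, E := E, ε := ε, q := q, N := N, hq := hq, hN := hN
      rough := fun j p hp hpq => by have := hrough j p hp hpq; omega
      he := he, hE := hE, hε := hε, htr := ht, hSS := hSS }
  set F : Ultrafilter ℕ := Filter.hyperfilter ℕ with hFdef
  have hF : (F : Filter ℕ) ≤ atTop := Nat.hyperfilter_le_atTop
  -- the three points
  obtain ⟨p₀, hp₀⟩ : ∃ p₀ : Fin 3 → X, ∀ᶠ j in (F : Filter ℕ), p j = p₀ := by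
    by_contra hno
    have h1 : ∀ p₀ : Fin 3 → X, ∀ᶠ j in (F : Filter ℕ), ¬ p j = p₀ := fun p₀ =>
      Ultrafilter.eventually_not.2 fun h => hno ⟨p₀, h⟩
    obtain ⟨j, hj⟩ := (Filter.eventually_all.2 h1).exists
    exact hj (p j) rfl
  have hp₀i : Function.Injective p₀ := by
    obtain ⟨j, hj⟩ := hp₀.exists
    rw [← hj]
    exact hp j
  have hDP' : ∀ᶠ j in (F : Filter ℕ), ∀ a : ℤ, IsCoprime a (S.N j : ℤ) →
      DPos p₀ ⟨0, hn⟩ fun x l => (a : ℝ) * S.e j x l := by
    filter_upwards [hp₀] with j hj a ha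
    rw [← hj]
    exact hDP j a ha
  have hsc' : ∀ x, (∀ i, x ≠ p₀ i) → ∀ l, S.cl F (x, l) = S.cl F (x, ⟨0, hn⟩) := by
    intro x hx l
    rw [cl_eq_iff S F hF]
    filter_upwards [hp₀] with j hj
    exact hsc j x (by rw [hj]; exact hx) l ⟨0, hn⟩
  have hC' : Crit fun x i j => S.cl F (p₀ x, i) = S.cl F (p₀ x, j) := by
    have h1 : ∀ᶠ N in (F : Filter ℕ), ∀ (x : Fin 3) (i j : Fin n),
        ((∃ w : ℤ, e N (p₀ x) i - e N (p₀ x) j = w) ↔
          S.cl F (p₀ x, i) = S.cl F (p₀ x, j)) := by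
      refine Filter.eventually_all.2 fun x => Filter.eventually_all.2 fun i =>
        Filter.eventually_all.2 fun j => ?_
      by_cases h : S.cl F (p₀ x, i) = S.cl F (p₀ x, j)
      · filter_upwards [(cl_eq_iff S F hF _ _ _).1 h] with N hN
        exact ⟨fun _ => h, fun _ => hN⟩
      · have h2 : ∀ᶠ N in (F : Filter ℕ), ¬ ∃ w : ℤ, S.e N (p₀ x) i - S.e N (p₀ x) j = w :=
          Ultrafilter.eventually_not.2 fun h3 => h ((cl_eq_iff S F hF _ _ _).2 h3)
        filter_upwards [h2] with N hN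
        exact ⟨fun h3 => absurd h3 hN, fun h3 => absurd h3 h⟩
    obtain ⟨N, hN, hpN⟩ := (h1.and hp₀).exists
    refine Crit_congr (fun x i j => hN x i j) ?_
    have := hC N
    rw [hpN] at this
    exact this
  obtain ⟨κ, hκ⟩ := exists_del S F hF hn hp₀i ⟨0, hn⟩ hDP' hsc' hC'
  have h1 := int_of_degree S F hF hn hκ (d := 1) (by
    intro x
    unfold del
    simp)
  obtain ⟨j, w, hw⟩ := h1.exists
  apply hfail j κ w
  rw [← hw]
  refine sum_congr rfl fun x _ => ?_
  show e j x (κ x) = ∑ l, ((del κ (x, l) : ℤ) : ℚ) * e j x l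
  unfold del
  simp

/-! ### Rank at most four -/

/-- The number of pairs with the same label. -/
def prN {n : ℕ} (f : Fin n → Fin n) : ℕ := ∑ i, ∑ j, if f i = f j then 1 else 0

/-- The number of the indices with the same label. -/
def muN {n : ℕ} (f : Fin n → Fin n) (k : Fin n) : ℕ := ∑ l, if f k = f l then 1 else 0

/-- The condition for one point, the exponents at the two others being distinct. -/
def C1 {n : ℕ} (f : Fin n → Fin n) : Prop :=
  (∃ k, n ^ 2 + prN f < 2 * n + 2 * n * muN f k) ∨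
    ∀ k k', f k ≠ f k' → n ^ 2 + prN f + 2 * muN f k * muN f k' < 2 * n + 2 * n * (muN f k + muN f k')

instance {n : ℕ} (f : Fin n → Fin n) : Decidable (C1 f) := by unfold C1; infer_instance

set_option maxRecDepth 100000 in
lemma small4 : ∀ a b c d : Fin 4, C1 ![a, b, c, d] := by
  decide +kernel

lemma small3 : ∀ a b c : Fin 3, C1 ![a, b, c] := by
  decide +kernel

lemma small2 : ∀ a b : Fin 2, C1 ![a, b] := by
  decide +kernel

lemma small1 : ∀ a : Fin 1, C1 ![a] := by
  decide +kernel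

lemma small {n : ℕ} (hn : 0 < n) (h4 : n ≤ 4) (f : Fin n → Fin n) : C1 f := by
  have : n = 1 ∨ n = 2 ∨ n = 3 ∨ n = 4 := by omega
  rcases this with rfl | rfl | rfl | rfl
  · have h := small1 (f 0)
    have e : ![f 0] = f := by funext i; fin_cases i; rfl
    rwa [e] at h
  · have h := small2 (f 0) (f 1)
    have e : ![f 0, f 1] = f := by funext i; fin_cases i <;> rfl
    rwa [e] at h
  · have h := small3 (f 0) (f 1) (f 2)
    have e : ![f 0, f 1, f 2] = f := by funext i; fin_cases i <;> rfl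
    rwa [e] at h
  · have h := small4 (f 0) (f 1) (f 2) (f 3)
    have e : ![f 0, f 1, f 2, f 3] = f := by funext i; fin_cases i <;> rfl
    rwa [e] at h

lemma pr_ge {n : ℕ} {r : Fin n → Fin n → Prop} [∀ i j, Decidable (r i j)] (h : ∀ i, r i i) :
    (n : ℤ) ≤ pr r := by
  unfold pr
  calc (n : ℤ) = ∑ i : Fin n, (1 : ℤ) := by simp
    _ ≤ _ := sum_le_sum fun i _ => by
      calc (1 : ℤ) = if r i i then 1 else 0 := by rw [if_pos (h i)]
        _ ≤ _ := single_le_sum (f := fun j => if r i j then (1 : ℤ) else 0)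
          (fun j _ => by split_ifs <;> norm_num) (mem_univ i)

/-- In rank at most four the condition on the multiplicities holds. -/
theorem crit_small {n : ℕ} (hn : 0 < n) (h4 : n ≤ 4) (r : Fin 3 → Fin n → Fin n → Prop)
    [∀ x i j, Decidable (r x i j)] (hr : ∀ x, Equivalence (r x)) : Crit r := by
  classical
  -- labels
  have hlab : ∀ x, ∃ f : Fin n → Fin n, ∀ i j, r x i j ↔ f i = f j := by
    intro x
    let s : Setoid (Fin n) := ⟨r x, hr x⟩
    refine ⟨fun i => (Quotient.mk s i).out, fun i j => ?_⟩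
    constructor
    · intro h
      have : Quotient.mk s i = Quotient.mk s j := Quotient.sound h
      simp only [this]
    · intro h
      have h1 : Quotient.mk s i = Quotient.mk s j := by
        rw [← Quotient.out_eq (Quotient.mk s i), ← Quotient.out_eq (Quotient.mk s j)]
        exact congrArg _ h
      exact Quotient.exact h1
  choose f hf using hlab
  have hpr : ∀ x, pr (r x) = prN (f x) := by
    intro x
    unfold pr prN
    push_cast
    exact sum_congr rfl fun i _ => sum_congr rfl fun j _ => by simp only [hf x i j]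
  have hmu : ∀ x k, mu (r x) k = muN (f x) k := by
    intro x k
    unfold mu muN
    push_cast
    exact sum_congr rfl fun j _ => by simp only [hf x k j]
  have hge : ∀ x, (n : ℤ) ≤ pr (r x) := fun x => pr_ge fun i => (hr x).refl i
  have hC : ∀ x, C1 (f x) := fun x => small hn h4 (f x)
  by_cases h1 : ∃ x k, n ^ 2 + prN (f x) < 2 * n + 2 * n * muN (f x) k
  · obtain ⟨x, k, hk⟩ := h1
    left
    refine ⟨x, k, ?_⟩
    obtain ⟨y, z, hxy, hyz, hxz⟩ := others x
    rw [sum3 hxy hyz hxz, hmu]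
    have a1 := hge y
    have a2 := hge z
    have a3 := hpr x
    have a4 : (n : ℤ) ^ 2 + prN (f x) < 2 * n + 2 * n * muN (f x) k := by exact_mod_cast hk
    linarith
  · right
    intro x k k' hkk
    have h2 := (hC x).resolve_left fun ⟨k, hk⟩ => h1 ⟨x, k, hk⟩
    have h3 := h2 k k' (fun e => hkk ((hf x k k').2 e))
    obtain ⟨y, z, hxy, hyz, hxz⟩ := others x
    rw [sum3 hxy hyz hxz, hmu, hmu]
    have a1 := hge y
    have a2 := hge z
    have a3 := hpr x
    have a4 : (n : ℤ) ^ 2 + prN (f x) + 2 * muN (f x) k * muN (f x) k' <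
      2 * n + 2 * n * (muN (f x) k + muN (f x) k') := by exact_mod_cast h3
    linarith

end Pool.Agent.N858.R4
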