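import Pool.Agent.N858.R4.Point
import Pool.Agent.N858.P5.Nu

set_option autoImplicit false

/-!
Rank one families of weights at three points satisfying the inequalities for line subbundles and the
quadratic inequality: resonances.
-/

open Finset

namespace Pool.Agent.N858.R4

open Pool.Agent.N858.P5 (bet bet_add_int bet_int bet_neg vanish)

variable {n : ℕ}

/-- The number of the pairs in the relation. -/
def pr (r : Fin n → Fin n → Prop) [∀ i j, Decidable (r i j)] : ℤ :=
  ∑ i, ∑ j, if r i j then 1 else 0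

/-- The number of the indices in relation with `k`. -/
def mu (r : Fin n → Fin n → Prop) [∀ i j, Decidable (r i j)] (k : Fin n) : ℤ :=
  ∑ l, if r k l then 1 else 0

/-- The number of the pairs of indices. -/
def nr (r : Fin n → Fin n → Prop) [∀ i j, Decidable (r i j)] : ℤ :=
  ∑ i, ∑ j, if r i j then 1 else 0

/-- The mean of the quadratic inequality over a cyclic group. -/
theorem mean {N : ℕ} (hN : 0 < N) (f g h : Fin n → ℤ) (k : Fin n)
    (hpos : ∀ t : ℝ, 0 ≤ DK (fun l => t * f l) (fun l => t * g l) (fun l => t * h l) k) :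
    0 ≤ (n : ℤ) ^ 2 + pr (fun i j => (N : ℤ) ∣ f i - f j) +
      2 * nr (fun i j => (N : ℤ) ∣ f k + g i + h j) - pr (fun i j => (N : ℤ) ∣ g i - g j) -
      pr (fun i j => (N : ℤ) ∣ h i - h j) - 2 * n * mu (fun i j => (N : ℤ) ∣ f i - f j) k := by
  classical
  have hNr : (N : ℝ) ≠ 0 := by exact_mod_cast hN.ne'
  let ι := Unit ⊕ (Fin n × Fin n) ⊕ (Fin n × Fin n) ⊕ (Fin n × Fin n) ⊕ (Fin n × Fin n) ⊕ Fin n
  let δ : ι → ℝ := Sum.elim (fun _ => (n : ℝ) ^ 2) (Sum.elim (fun _ => 1) (Sum.elim (fun _ => 2)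
    (Sum.elim (fun _ => -1) (Sum.elim (fun _ => -1) fun _ => -2 * n))))
  let x : ι → ℤ := Sum.elim (fun _ => 0) (Sum.elim (fun t => f t.1 - f t.2)
    (Sum.elim (fun t => f k + g t.1 + h t.2) (Sum.elim (fun t => g t.1 - g t.2)
    (Sum.elim (fun t => h t.1 - h t.2) fun l => f k - f l))))
  have hDK : ∀ t : ℝ, DK (fun l => t * f l) (fun l => t * g l) (fun l => t * h l) k =
      ∑ i, δ i * bet (t * x i) := by
    intro t
    simp only [δ, x, ι, Fintype.sum_sum_type, Sum.elim_inl, Sum.elim_inr, Fintype.sum_prod_type,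
      univ_unique, sum_singleton]
    have h0 : bet (t * ((0 : ℤ) : ℝ)) = 1 / 6 := by
      have := bet_int 0
      simpa using this
    rw [h0]
    unfold DK
    simp only [one_mul, ← mul_sum, neg_mul, sum_neg_distrib]
    have e1 : ∀ a : Fin n → ℤ, ∑ i, ∑ j, bet (t * a i - t * a j) =
        ∑ i, ∑ j, bet (t * ((a i - a j : ℤ) : ℝ)) := fun a =>
      sum_congr rfl fun i _ => sum_congr rfl fun j _ => by push_cast; congr 1; ring
    have e2 : ∑ i, ∑ j, bet (t * f k + t * g i + t * h j) =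
        ∑ i, ∑ j, bet (t * ((f k + g i + h j : ℤ) : ℝ)) :=
      sum_congr rfl fun i _ => sum_congr rfl fun j _ => by push_cast; congr 1; ring
    have e3 : ∑ l, bet (t * f k - t * f l) = ∑ l, bet (t * ((f k - f l : ℤ) : ℝ)) :=
      sum_congr rfl fun j _ => by push_cast; congr 1; ring
    rw [e1, e1, e1, e2, e3]
    ring
  by_contra hcon
  push Not at hcon
  have hS : ∑ i, (if (N : ℤ) ∣ x i then δ i else 0) =
      (((n : ℤ) ^ 2 + pr (fun i j => (N : ℤ) ∣ f i - f j) +
      2 * nr (fun i j => (N : ℤ) ∣ f k + g i + h j) - pr (fun i j => (N : ℤ) ∣ g i - g j) -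
      pr (fun i j => (N : ℤ) ∣ h i - h j) - 2 * n * mu (fun i j => (N : ℤ) ∣ f i - f j) k : ℤ) : ℝ) := by
    let φ : ℤ → ℝ → ℝ := fun z c => if (N : ℤ) ∣ z then c else 0
    have hφ : ∑ i, (if (N : ℤ) ∣ x i then δ i else 0) = ∑ i, φ (x i) (δ i) := rfl
    have hφm : ∀ z c, φ z c = c * φ z 1 := by
      intro z c
      simp only [φ]
      split_ifs <;> simp
    rw [hφ]
    simp only [δ, x, ι, Fintype.sum_sum_type, Sum.elim_inl, Sum.elim_inr, Fintype.sum_prod_type,
      univ_unique, sum_singleton]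
    have e0 : φ 0 ((n : ℝ) ^ 2) = (n : ℝ) ^ 2 := if_pos (dvd_zero _)
    have e1 : ∀ (a : Fin n → ℤ), ((pr (fun i j => (N : ℤ) ∣ a i - a j) : ℤ) : ℝ) =
        ∑ i, ∑ j, φ (a i - a j) 1 := by
      intro a
      unfold pr
      push_cast
      rfl
    have e2 : ((nr (fun i j => (N : ℤ) ∣ f k + g i + h j) : ℤ) : ℝ) =
        ∑ i, ∑ j, φ (f k + g i + h j) 1 := by
      unfold nr
      push_cast
      rfl
    have e3 : ((mu (fun i j => (N : ℤ) ∣ f i - f j) k : ℤ) : ℝ) = ∑ l, φ (f k - f l) 1 := by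
      unfold mu
      push_cast
      rfl
    push_cast
    rw [e0, e1, e1, e1, e2, e3]
    simp only [hφm _ (-1), hφm _ 2, hφm _ (-2 * (n : ℝ)), ← mul_sum]
    ring
  have h1 := vanish hN univ δ x (fun j => by
    have h2 := hpos ((j : ℝ) / N)
    rw [hDK] at h2
    refine h2.trans_eq (sum_congr rfl fun i _ => ?_)
    congr 2
    field_simp) (by
    rw [hS]
    exact_mod_cast hcon.le)
  have h2 := h1.1
  rw [hS] at h2
  have h3 : ((0 : ℤ) : ℝ) = 0 := Int.cast_zero
  rw [← h3] at h2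
  have h4 := Int.cast_injective h2
  omega

/-- The inequalities for line subbundles through exponents. -/
def Lin (f g h : Fin n → ℤ) : Prop :=
  ∀ (t : ℝ) (i j k : Fin n), 0 < t * ((f i + g j + h k : ℤ) : ℝ) →
    ∑ l, ⌊t * ((f l - f i : ℤ) : ℝ)⌋ + ∑ l, ⌊t * ((g l - g j : ℤ) : ℝ)⌋ +
      ∑ l, ⌊t * ((h l - h k : ℤ) : ℝ)⌋ + n ≤ 0

lemma floor_small {P d : ℤ} (h0 : 0 ≤ d) (h1 : d ≤ P) : ⌊(1 / ((P : ℝ) + 1)) * (d : ℝ)⌋ = 0 := by
  have hP : (0 : ℝ) < (P : ℝ) + 1 := by exact_mod_cast (by omega : 0 < P + 1)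
  rw [Int.floor_eq_zero_iff]
  constructor
  · have : (0 : ℝ) ≤ d := by exact_mod_cast h0
    positivity
  · rw [one_div, ← div_eq_inv_mul, div_lt_one hP]
    exact_mod_cast (by omega : d < P + 1)

lemma floor_ge {P d : ℤ} (hP : 0 ≤ P) (h0 : -P ≤ d) : -1 ≤ ⌊(1 / ((P : ℝ) + 1)) * (d : ℝ)⌋ := by
  have hP : (0 : ℝ) < (P : ℝ) + 1 := by exact_mod_cast (by omega : 0 < P + 1)
  rw [Int.le_floor]
  push_cast
  rw [one_div, ← div_eq_inv_mul, le_div_iff₀ hP]
  have h1 : ((-P : ℤ) : ℝ) ≤ d := by exact_mod_cast h0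
  push_cast at h1
  linarith

/-- If the exponents at two points are the smallest ones, the sum with any exponent at the third
point is not positive. -/
lemma Lin.nonpos {f g h : Fin n → ℤ} (hL : Lin f g h) {P : ℤ} (hP : 0 ≤ P)
    (hf : ∀ l l', f l - f l' ≤ P) (hg : ∀ l l', g l - g l' ≤ P) (hh : ∀ l l', h l - h l' ≤ P)
    {i j : Fin n} (hi : ∀ l, f i ≤ f l) (hj : ∀ l, g j ≤ g l) (k : Fin n) :
    f i + g j + h k ≤ 0 := by
  classical
  by_contra hcon
  push Not at hcon
  have hPr : (0 : ℝ) < (P : ℝ) + 1 := by exact_mod_cast (by omega : 0 < P + 1)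
  have h1 := hL (1 / ((P : ℝ) + 1)) i j k (by
    have : (0 : ℝ) < ((f i + g j + h k : ℤ) : ℝ) := by exact_mod_cast hcon
    positivity)
  rw [sum_eq_zero fun l _ => floor_small (sub_nonneg.2 (hi l)) (hf l i),
    sum_eq_zero fun l _ => floor_small (sub_nonneg.2 (hj l)) (hg l j), zero_add, zero_add] at h1
  have h2 : -(n : ℤ) + 1 ≤ ∑ l, ⌊(1 / ((P : ℝ) + 1)) * ((h l - h k : ℤ) : ℝ)⌋ := by
    calc -(n : ℤ) + 1 = ∑ l : Fin n, (-1 + if l = k then (1 : ℤ) else 0) := by
          rw [sum_add_distrib, sum_ite_eq' univ k, if_pos (mem_univ _)]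
          simp
      _ ≤ _ := by
          refine sum_le_sum fun l _ => ?_
          split_ifs with hl
          · rw [hl, sub_self, Int.cast_zero, mul_zero, Int.floor_zero]
            norm_num
          · have := hh k l
            rw [add_zero]
            exact floor_ge hP (by omega)
  omega

lemma Lin.neg {f g h : Fin n → ℤ} (hL : Lin f g h) :
    Lin (fun l => -f l) (fun l => -g l) (fun l => -h l) := by
  intro t i j k hpos
  have h1 := hL (-t) i j k (by
    have : -t * ((f i + g j + h k : ℤ) : ℝ) = t * ((-f i + -g j + -h k : ℤ) : ℝ) := by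
      push_cast; ring
    rw [this]; exact hpos)
  have e : ∀ (a : Fin n → ℤ) (i l : Fin n), -t * ((a l - a i : ℤ) : ℝ) =
      t * ((-a l - -a i : ℤ) : ℝ) := by
    intro a i l
    push_cast
    ring
  simp only [e] at h1
  exact h1

/-- The largest spread does not divide the sums which contain an extreme exponent at the point,
unless there is a resonance. -/
theorem spread_dvd {f g h : Fin n → ℤ} (hL : Lin f g h) {i0 i1 : Fin n} (h0 : ∀ l, f i0 ≤ f l)
    (h1 : ∀ l, f l ≤ f i1) (hg : ∀ l l', g l - g l' ≤ f i1 - f i0)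
    (hh : ∀ l l', h l - h l' ≤ f i1 - f i0) (hno : ∀ i j k, f i + g j + h k ≠ 0) (j k : Fin n)
    (hdvd : (f i1 - f i0) ∣ f i0 + g j + h k) : False := by
  set P := f i1 - f i0 with hP
  have hP0 : 0 ≤ P := by have := h0 i1; omega
  have hf : ∀ l l', f l - f l' ≤ P := fun l l' => by
    have := h1 l; have := h0 l'; omega
  obtain ⟨j', -, hj'⟩ := exists_min_image univ g ⟨j, mem_univ _⟩
  obtain ⟨j'', -, hj''⟩ := exists_max_image univ g ⟨j, mem_univ _⟩
  have a1 := hL.nonpos hP0 hf hg hh h0 (fun l => hj' l (mem_univ _)) k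
  have a2 := hL.neg.nonpos hP0 (i := i1) (j := j'') (fun l l' => by have := hf l' l; omega)
    (fun l l' => by have := hg l' l; omega) (fun l l' => by have := hh l' l; omega)
    (fun l => neg_le_neg (h1 l)) (fun l => neg_le_neg (hj'' l (mem_univ _))) k
  have b1 := hno i0 j' k
  have b2 := hno i1 j'' k
  have b3 := hno i0 j k
  have b4 := hno i1 j k
  have c1 := hg j j'
  have c2 := hg j'' j
  obtain ⟨c, hc⟩ := hdvd
  have d1 : f i0 + g j + h k < P := by omega
  have d2 : -(2 * P) < f i0 + g j + h k := by omega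
  rw [hc] at d1 d2
  have hPpos : 0 < P := by
    rcases hP0.lt_or_eq with h | h
    · exact h
    · rw [← h] at d1 d2
      simp at d1
  have e1 : c < 1 := by
    by_contra hcc
    push Not at hcc
    nlinarith
  have e2 : -2 < c := by
    by_contra hcc
    push Not at hcc
    nlinarith
  rcases (by omega : c = 0 ∨ c = -1) with e | e
  · rw [e, mul_zero] at hc
    exact b3 hc
  · rw [e] at hc
    apply b4
    omega

end Pool.Agent.N858.R4
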