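import Pool.Agent.N858.R4.Core

set_option autoImplicit false

/-!
Resonances of rank one families of weights at three points, under a condition on the
multiplicities.
-/

open Finset

namespace Pool.Agent.N858.R4

variable {n : ℕ}

lemma pr_congr {r r' : Fin n → Fin n → Prop} [∀ i j, Decidable (r i j)]
    [∀ i j, Decidable (r' i j)] (h : ∀ i j, r i j ↔ r' i j) : pr r = pr r' := by
  unfold pr
  exact sum_congr rfl fun i _ => sum_congr rfl fun j _ => by simp only [h i j]

lemma mu_congr {r r' : Fin n → Fin n → Prop} [∀ i j, Decidable (r i j)]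
    [∀ i j, Decidable (r' i j)] (h : ∀ i j, r i j ↔ r' i j) (k : Fin n) : mu r k = mu r' k := by
  unfold mu
  exact sum_congr rfl fun j _ => by simp only [h k j]

lemma pr_mono {r r' : Fin n → Fin n → Prop} [∀ i j, Decidable (r i j)]
    [∀ i j, Decidable (r' i j)] (h : ∀ i j, r i j → r' i j) : pr r ≤ pr r' := by
  unfold pr
  refine sum_le_sum fun i _ => sum_le_sum fun j _ => ?_
  split_ifs with h1 h2 h2
  · exact le_rfl
  · exact absurd (h i j h1) h2
  · norm_num
  · exact le_rfl

lemma nr_zero {r : Fin n → Fin n → Prop} [∀ i j, Decidable (r i j)] (h : ∀ i j, ¬ r i j) :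
    nr r = 0 := by
  unfold nr
  exact sum_eq_zero fun i _ => sum_eq_zero fun j _ => if_neg (h i j)

/-- The first inequality between multiplicities. -/
theorem first {f g h : Fin n → ℤ} {k : Fin n}
    (hpos : ∀ t : ℝ, 0 ≤ DK (fun l => t * f l) (fun l => t * g l) (fun l => t * h l) k)
    (hno : ∀ i j, f k + g i + h j ≠ 0) :
    0 ≤ (n : ℤ) ^ 2 + pr (fun i j => f i = f j) - pr (fun i j => g i = g j) -
      pr (fun i j => h i = h j) - 2 * n * mu (fun i j => f i = f j) k := by
  classical
  set S : ℕ := ∑ i, ∑ j, ((f i - f j).natAbs + (g i - g j).natAbs + (h i - h j).natAbs +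
    (f k + g i + h j).natAbs) with hS
  have hb : ∀ i j, (f i - f j).natAbs + (g i - g j).natAbs + (h i - h j).natAbs +
      (f k + g i + h j).natAbs ≤ S := by
    intro i j
    have h1 := single_le_sum (f := fun j => (f i - f j).natAbs + (g i - g j).natAbs +
      (h i - h j).natAbs + (f k + g i + h j).natAbs) (fun _ _ => Nat.zero_le _) (mem_univ j)
    exact h1.trans (single_le_sum (f := fun i => ∑ j, ((f i - f j).natAbs + (g i - g j).natAbs +
      (h i - h j).natAbs + (f k + g i + h j).natAbs)) (fun _ _ => Nat.zero_le _) (mem_univ i))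
  have hdv : ∀ z : ℤ, z.natAbs ≤ S → (((S + 1 : ℕ) : ℤ) ∣ z ↔ z = 0) := by
    intro z hz
    constructor
    · intro h1
      exact Int.eq_zero_of_dvd_of_natAbs_lt_natAbs h1 (by
        rw [Int.natAbs_natCast]
        omega)
    · rintro rfl
      exact dvd_zero _
  have h1 := mean (N := S + 1) (Nat.succ_pos _) f g h k hpos
  rw [pr_congr (r' := fun i j => f i = f j) (fun i j => by
      rw [hdv _ (by have := hb i j; omega), sub_eq_zero]),
    pr_congr (r := fun i j => ((S + 1 : ℕ) : ℤ) ∣ g i - g j) (r' := fun i j => g i = g j)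
      (fun i j => by rw [hdv _ (by have := hb i j; omega), sub_eq_zero]),
    pr_congr (r := fun i j => ((S + 1 : ℕ) : ℤ) ∣ h i - h j) (r' := fun i j => h i = h j)
      (fun i j => by rw [hdv _ (by have := hb i j; omega), sub_eq_zero]),
    mu_congr (r' := fun i j => f i = f j)
      (fun i j => by rw [hdv _ (by have := hb i j; omega), sub_eq_zero]),
    nr_zero (fun i j => by rw [hdv _ (by have := hb i j; omega)]; exact hno i j)] at h1
  linarith

/-- The second inequality between multiplicities. -/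
theorem second {f g h : Fin n → ℤ} (hL : Lin f g h) {i0 i1 : Fin n} (h0 : ∀ l, f i0 ≤ f l)
    (h1 : ∀ l, f l ≤ f i1) (h01 : f i0 < f i1) (hg : ∀ l l', g l - g l' ≤ f i1 - f i0)
    (hh : ∀ l l', h l - h l' ≤ f i1 - f i0)
    (hpos : ∀ t : ℝ, 0 ≤ DK (fun l => t * f l) (fun l => t * g l) (fun l => t * h l) i0)
    (hno : ∀ i j k, f i + g j + h k ≠ 0) :
    0 ≤ (n : ℤ) ^ 2 + pr (fun i j => f i = f j) +
      2 * mu (fun i j => f i = f j) i0 * mu (fun i j => f i = f j) i1 -
      pr (fun i j => g i = g j) - pr (fun i j => h i = h j) -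
      2 * n * (mu (fun i j => f i = f j) i0 + mu (fun i j => f i = f j) i1) := by
  classical
  set P : ℕ := (f i1 - f i0).toNat with hPdef
  have hP : (P : ℤ) = f i1 - f i0 := Int.toNat_of_nonneg (by omega)
  have hP0 : 0 < P := by omega
  have key := mean hP0 f g h i0 hpos
  have hdv : ∀ i j, (P : ℤ) ∣ f i - f j ↔ f i = f j ∨ (f i0 = f i ∧ f i1 = f j) ∨
      (f i1 = f i ∧ f i0 = f j) := by
    intro i j
    have a1 := h0 i
    have a2 := h0 j
    have a3 := h1 i
    have a4 := h1 j
    constructor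
    · rintro ⟨c, hc⟩
      have c1 : c < 2 := by
        by_contra hcc
        push Not at hcc
        nlinarith
      have c2 : -2 < c := by
        by_contra hcc
        push Not at hcc
        nlinarith
      rcases (by omega : c = 0 ∨ c = 1 ∨ c = -1) with e | e | e <;> rw [e] at hc <;> omega
    · rintro (e | ⟨e1, e2⟩ | ⟨e1, e2⟩)
      · rw [e, sub_self]
        exact dvd_zero _
      · exact ⟨-1, by omega⟩
      · exact ⟨1, by omega⟩
  have e1 : pr (fun i j => (P : ℤ) ∣ f i - f j) = pr (fun i j => f i = f j) +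
      2 * mu (fun i j => f i = f j) i0 * mu (fun i j => f i = f j) i1 := by
    have t1 : ∀ i j, (if (P : ℤ) ∣ f i - f j then (1 : ℤ) else 0) = (if f i = f j then 1 else 0) +
        (if f i0 = f i then 1 else 0) * (if f i1 = f j then 1 else 0) +
        (if f i1 = f i then 1 else 0) * (if f i0 = f j then 1 else 0) := by
      intro i j
      have := hdv i j
      by_cases b1 : f i = f j
      · rw [if_pos (this.2 (Or.inl b1)), if_pos b1]
        split_ifs <;> first | omega | norm_num
      · by_cases b2 : f i0 = f i ∧ f i1 = f j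
        · rw [if_pos (this.2 (Or.inr (Or.inl b2))), if_neg b1, if_pos b2.1, if_pos b2.2]
          split_ifs <;> first | omega | norm_num
        · by_cases b3 : f i1 = f i ∧ f i0 = f j
          · rw [if_pos (this.2 (Or.inr (Or.inr b3))), if_neg b1, if_pos b3.1, if_pos b3.2]
            split_ifs <;> first | omega | norm_num
          · rw [if_neg (fun hc => by rcases this.1 hc with h | h | h <;> tauto), if_neg b1]
            split_ifs <;> first | tauto | norm_num
    unfold pr mu
    simp only [t1, sum_add_distrib, ← mul_sum, ← sum_mul]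
    ring
  have e2 : mu (fun i j => (P : ℤ) ∣ f i - f j) i0 = mu (fun i j => f i = f j) i0 +
      mu (fun i j => f i = f j) i1 := by
    unfold mu
    rw [← sum_add_distrib]
    refine sum_congr rfl fun l _ => ?_
    have := hdv i0 l
    by_cases b1 : f i0 = f l
    · rw [if_pos (this.2 (Or.inl b1)), if_pos b1, if_neg (by omega)]
      norm_num
    · by_cases b2 : f i1 = f l
      · rw [if_pos (this.2 (Or.inr (Or.inl ⟨rfl, b2⟩))), if_neg b1, if_pos b2]
        norm_num
      · rw [if_neg (fun hc => by rcases this.1 hc with h | h | h <;> omega), if_neg b1, if_neg b2]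
        norm_num
  have e3 : pr (fun i j => g i = g j) ≤ pr (fun i j => (P : ℤ) ∣ g i - g j) :=
    pr_mono fun i j e => by rw [e, sub_self]; exact dvd_zero _
  have e4 : pr (fun i j => h i = h j) ≤ pr (fun i j => (P : ℤ) ∣ h i - h j) :=
    pr_mono fun i j e => by rw [e, sub_self]; exact dvd_zero _
  have e5 : nr (fun i j => (P : ℤ) ∣ f i0 + g i + h j) = 0 := nr_zero fun i j hd =>
    spread_dvd hL h0 h1 hg hh hno i j (by rwa [hP] at hd)
  rw [e1, e2, e5] at key
  linarith

/-- The condition on the multiplicities: `r x` is the congruence of the exponents at the point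
`x`. -/
def Crit (r : Fin 3 → Fin n → Fin n → Prop) [∀ x i j, Decidable (r x i j)] : Prop :=
  (∃ x k, (n : ℤ) ^ 2 + 2 * pr (r x) < ∑ y, pr (r y) + 2 * n * mu (r x) k) ∨
  ∀ x k k', ¬ r x k k' → (n : ℤ) ^ 2 + 2 * pr (r x) + 2 * mu (r x) k * mu (r x) k' <
    ∑ y, pr (r y) + 2 * n * (mu (r x) k + mu (r x) k')

lemma sum3 {M : Type*} [AddCommMonoid M] {x y z : Fin 3} (hxy : x ≠ y) (hyz : y ≠ z)
    (hxz : x ≠ z) (F : Fin 3 → M) : ∑ p, F p = F x + F y + F z := by
  have h1 : (univ : Finset (Fin 3)) = {x, y, z} := by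
    revert x y z
    decide
  rw [h1, sum_insert (by simp [hxy, hxz]), sum_insert (by simp [hyz]), sum_singleton, add_assoc]

lemma others (x : Fin 3) : ∃ y z : Fin 3, x ≠ y ∧ y ≠ z ∧ x ≠ z := by
  revert x
  decide

/-- **The resonance of a rank one family.** -/
theorem core (hn : 0 < n) (v : Fin 3 → Fin n → ℤ) (hsum : ∑ x, ∑ l, v x l = 0)
    (hL : ∀ (t : ℝ) (κ : Fin 3 → Fin n), 0 < t * ((∑ x, v x (κ x) : ℤ) : ℝ) →
      ∑ x, ∑ l, ⌊t * ((v x l - v x (κ x) : ℤ) : ℝ)⌋ + n ≤ 0)
    (hD : ∀ x y z : Fin 3, x ≠ y → y ≠ z → x ≠ z → ∀ (k : Fin n) (t : ℝ),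
      0 ≤ DK (fun l => t * v x l) (fun l => t * v y l) (fun l => t * v z l) k)
    (hC : Crit (fun x i j => v x i = v x j)) : ∃ κ : Fin 3 → Fin n, ∑ x, v x (κ x) = 0 := by
  classical
  by_contra hcon
  push Not at hcon
  have hno : ∀ x y z : Fin 3, x ≠ y → y ≠ z → x ≠ z → ∀ i j k : Fin n,
      v x i + v y j + v z k ≠ 0 := by
    intro x y z hxy hyz hxz i j k
    have := hcon fun p => if p = x then i else if p = y then j else k
    rw [sum3 hxy hyz hxz] at this
    simpa [hxy, hxy.symm, hyz, hyz.symm, hxz, hxz.symm] using this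
  have hLin : ∀ x y z : Fin 3, x ≠ y → y ≠ z → x ≠ z → Lin (v x) (v y) (v z) := by
    intro x y z hxy hyz hxz t i j k hpos
    have := hL t (fun p => if p = x then i else if p = y then j else k) (by
      rw [sum3 hxy hyz hxz]
      simpa [hxy, hxy.symm, hyz, hyz.symm, hxz, hxz.symm] using hpos)
    rw [sum3 hxy hyz hxz] at this
    simpa [hxy, hxy.symm, hyz, hyz.symm, hxz, hxz.symm] using this
  rcases hC with ⟨x, k, hk⟩ | hC
  · obtain ⟨y, z, hxy, hyz, hxz⟩ := others x
    have h1 := first (hD x y z hxy hyz hxz k) fun i j => hno x y z hxy hyz hxz k i j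
    rw [sum3 hxy hyz hxz] at hk
    linarith
  · -- the point with the largest spread
    have hne : (univ : Finset (Fin 3 × Fin n × Fin n)).Nonempty :=
      ⟨(0, ⟨0, hn⟩, ⟨0, hn⟩), mem_univ _⟩
    obtain ⟨⟨x, i1, i0⟩, -, hmax⟩ := exists_max_image univ
      (fun t : Fin 3 × Fin n × Fin n => v t.1 t.2.1 - v t.1 t.2.2) hne
    have hmax' : ∀ (p : Fin 3) (l l' : Fin n), v p l - v p l' ≤ v x i1 - v x i0 := fun p l l' =>
      hmax (p, l, l') (mem_univ _)
    have h0 : ∀ l, v x i0 ≤ v x l := fun l => by have := hmax' x i1 l; omega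
    have h1 : ∀ l, v x l ≤ v x i1 := fun l => by have := hmax' x l i0; omega
    rcases (h0 i1).lt_or_eq with h01 | h01
    · obtain ⟨y, z, hxy, hyz, hxz⟩ := others x
      have h2 := second (hLin x y z hxy hyz hxz) h0 h1 h01 (hmax' y) (hmax' z)
        (hD x y z hxy hyz hxz i0) (hno x y z hxy hyz hxz)
      have h3 := hC x i0 i1 h01.ne
      rw [sum3 hxy hyz hxz] at h3
      linarith
    · -- everything is scalar
      have h2 : ∀ p l l', v p l = v p l' := by
        intro p l l'
        have a1 := hmax' p l l'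
        have a2 := hmax' p l' l
        omega
      set l0 : Fin n := ⟨0, hn⟩
      have h3 : ∀ p, ∑ l, v p l = n * v p l0 := by
        intro p
        rw [sum_congr rfl fun l _ => h2 p l l0, sum_const, card_univ, Fintype.card_fin,
          nsmul_eq_mul]
      rw [sum_congr rfl fun p _ => h3 p, ← mul_sum] at hsum
      have hn' : (n : ℤ) ≠ 0 := by exact_mod_cast hn.ne'
      exact hcon (fun _ => l0) ((mul_eq_zero.1 hsum).resolve_left hn')

end Pool.Agent.N858.R4
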