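import Pool.Agent.N858.R4.SSwap
import Pool.Agent.R927.SemiBru
import Pool.Agent.R927.SemiHinge
import Pool.Agent.N858.P5.Beta

set_option autoImplicit false

/-!
The quadratic inequality for one exponent at one of three points, for the weights of a semistable
parabolic bundle, in terms of the second Bernoulli function.
-/

open Finset

namespace Pool.Agent.N858.R4

open Pool.Agent.Y227.SS Pool.Agent.R927 Pool.Agent.W280.PC
open Pool.Agent.N858.P5 (bet bet_add_int bet_int bet_neg)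

/-- The value of the quadratic inequality for the exponent number `k` at the first point. -/
noncomputable def DK {n : ℕ} (f g h : Fin n → ℝ) (k : Fin n) : ℝ :=
  (n : ℝ) ^ 2 / 6 + ∑ i, ∑ j, bet (f i - f j) + 2 * ∑ i, ∑ j, bet (f k + g i + h j) -
    ∑ i, ∑ j, bet (g i - g j) - ∑ i, ∑ j, bet (h i - h j) - 2 * n * ∑ l, bet (f k - f l)

section base

variable {K : Type*} [Field K] {m r : ℕ}

lemma semiWeights_congr {x x' : Fin m → Fin r → ℝ}
    {y y' : Fin r → ℝ} (h : SemistableWeights K x y) (hx : ∀ j l, ∃ m : ℤ, x j l = x' j l + m)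
    (hy : ∀ l, ∃ m : ℤ, y l = y' l + m) : SemistableWeights K x' y' := by
  obtain ⟨β, P, w, e, h1, h2, h3, h4, ⟨ρ, h5⟩, h6, h7⟩ := h
  refine ⟨β, P, w, e, h1, h2, h3, fun j => ?_, ⟨ρ, fun l => ?_⟩, h6, h7⟩
  · obtain ⟨σ, hσ⟩ := h4 j
    refine ⟨σ, fun l => ?_⟩
    obtain ⟨m, hm⟩ := hσ l
    obtain ⟨m', hm'⟩ := hx j (σ l)
    exact ⟨m' + m, by rw [hm, hm']; push_cast; ring⟩
  · obtain ⟨m, hm⟩ := h5 l
    obtain ⟨m', hm'⟩ := hy (ρ l)
    exact ⟨m' + m, by rw [hm, hm']; push_cast; ring⟩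

lemma semiWeights_sum {x : Fin m → Fin r → ℝ} {y : Fin r → ℝ}
    (h : SemistableWeights K x y) : ∃ m : ℤ, ∑ j, ∑ l, x j l = ∑ l, y l + m := by
  obtain ⟨β, P, w, e, -, hx, ⟨ρ, hρ⟩, hpar⟩ := semi_par h
  choose σ hσ using hx
  choose g hg using hσ
  choose k hk using hρ
  refine ⟨∑ l, k l - ∑ j, ∑ l, g j l, ?_⟩
  have e1 : ∀ j, ∑ l, w j l = ∑ l, x j l + ((∑ l, g j l : ℤ) : ℝ) := by
    intro j
    push_cast
    rw [← Equiv.sum_comp (σ j) (fun l => x j l), ← sum_add_distrib]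
    exact sum_congr rfl fun l _ => hg j l
  have e2 : ∑ l, e l = ∑ l, y l + ((∑ l, k l : ℤ) : ℝ) := by
    push_cast
    rw [← Equiv.sum_comp ρ (fun l => y l), ← sum_add_distrib]
    exact sum_congr rfl fun l _ => hk l
  have h1 := hpar.sum
  rw [sum_congr rfl fun j _ => e1 j, sum_add_distrib, e2] at h1
  push_cast at h1 ⊢
  linarith

lemma Q_bet {N : ℕ} (hN : 0 < N) (z : ℤ) :
    ((Q (2 * N) (2 * z) : ℤ) : ℝ) = 4 * (N : ℝ) ^ 2 * (bet ((z : ℝ) / N) - 1 / 6) := by
  have hNr : (N : ℝ) ≠ 0 := by exact_mod_cast hN.ne'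
  have hq : Q (2 * N) (2 * z) = 4 * ((z % N) * (z % N - N)) := by
    unfold Q
    have h1 : (2 * z) % ((2 * N : ℕ) : ℤ) = 2 * (z % N) := by
      push_cast
      exact Int.mul_emod_mul_of_pos _ _ (by norm_num)
    rw [h1]
    push_cast
    ring
  rw [hq]
  unfold bet
  have h1 : Int.fract ((z : ℝ) / N) = ((z % N : ℤ) : ℝ) / N := by
    have h2 : (z : ℝ) / N = ((z % N : ℤ) : ℝ) / N + ((z / N : ℤ) : ℝ) := by
      have h3 := Int.emod_add_mul_ediv z N
      have h4 : (z : ℝ) = ((z % N : ℤ) : ℝ) + N * ((z / N : ℤ) : ℝ) := by exact_mod_cast h3.symm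
      rw [h4]
      field_simp
    rw [h2, Int.fract_add_intCast, Int.fract_eq_self]
    have hN' : (0 : ℤ) < N := by exact_mod_cast hN
    have h5 : 0 ≤ z % N := Int.emod_nonneg _ hN'.ne'
    have h6 : z % N < N := Int.emod_lt_of_pos _ hN'
    have hNp : (0 : ℝ) < N := by exact_mod_cast hN
    constructor
    · exact div_nonneg (by exact_mod_cast h5) hNp.le
    · rw [div_lt_one hNp]
      exact_mod_cast h6
  rw [h1]
  push_cast
  field_simp
  ring

/-- The inequality for integral numerators. -/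
theorem base {N : ℕ} (hN : 0 < N) (f g h : Fin r → ℤ)
    (hss : SemistableWeights ℂ (fun (j : Fin 2) l => if j = 0 then (f l : ℝ) / N else (g l : ℝ) / N)
      (fun l => -((h l : ℝ) / N))) (k : Fin r) :
    0 ≤ DK (fun l => (f l : ℝ) / N) (fun l => (g l : ℝ) / N) (fun l => (h l : ℝ) / N) k := by
  classical
  have hNr : (N : ℝ) ≠ 0 := by exact_mod_cast hN.ne'
  have hNp : (0 : ℝ) < N := by exact_mod_cast hN
  obtain ⟨M, hM⟩ := semiWeights_sum hss
  have hM' : ∑ l, f l + ∑ l, g l + ∑ l, h l = N * M := by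
    rw [Fin.sum_univ_two] at hM
    simp only [if_true, one_ne_zero, if_false, sum_neg_distrib, ← sum_div] at hM
    have : ((∑ l, f l + ∑ l, g l + ∑ l, h l : ℤ) : ℝ) = ((N * M : ℤ) : ℝ) := by
      push_cast
      field_simp at hM
      linarith
    exact_mod_cast this
  -- the corrected numerators at the third point
  set h' : Fin r → ℤ := fun l => h l - if l = k then N * M else 0 with hh'
  have hsum : ∑ l, f l + ∑ l, g l + ∑ l, h' l = 0 := by
    simp only [hh', sum_sub_distrib, sum_ite_eq', mem_univ, if_true]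
    linarith
  have hss' : SemistableWeights ℂ
      (fun (j : Fin 2) l => if j = 0 then (f l : ℝ) / N else (g l : ℝ) / N)
      (fun l => -((h' l : ℝ) / N)) := by
    refine semiWeights_congr hss (fun j l => ⟨0, by simp⟩) fun l => ?_
    refine ⟨-(if l = k then M else 0), ?_⟩
    simp only [hh']
    split_ifs
    · push_cast
      field_simp
      ring
    · push_cast
      ring
  have hD : 0 < 2 * N := by omega
  have hD2 : (2 : ℤ) ∣ ((2 * N : ℕ) : ℤ) := ⟨N, by push_cast; ring⟩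
  have key := quad_ineq' hD hD2 (fun l => 2 * f l) (fun l => 2 * g l) (fun l => 2 * -h' l)
    (fun l => ⟨f l, rfl⟩) (by
      rw [← mul_sum, ← mul_sum, ← mul_sum, sum_neg_distrib]
      linarith) (2 * f k) ⟨f k, rfl⟩ (by
    intro δ hδ _ _
    set τ : ℤ := 2 * f k - δ with hτdef
    have hτ : ¬ 2 ∣ τ := fun h0 => hδ (by
      have h1 : (2 : ℤ) ∣ 2 * f k := ⟨f k, rfl⟩
      exact (dvd_sub_right h1).1 h0)
    have h1 := semiWeights_shift hss' 0 (-(τ : ℝ) / ((2 * N : ℕ) : ℝ))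
    have h2 : SemistableWeights ℂ
        (fun (j : Fin 2) l => (((if j = 0 then 2 * f l - τ else 2 * g l : ℤ) : ℤ) : ℝ) /
          ((2 * N : ℕ) : ℝ))
        (fun l => ((2 * -h' l - τ : ℤ) : ℝ) / ((2 * N : ℕ) : ℝ)) := by
      refine semiWeights_congr h1 (fun j l => ⟨0, ?_⟩) (fun l => ⟨0, ?_⟩)
      · split_ifs
        · push_cast
          field_simp
          ring
        · push_cast
          field_simp
          try ring
      · push_cast
        field_simp
        try ring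
    obtain ⟨Y, Z, ρ, hY, hZ, hs, hθ⟩ := int_hinge' (2 * N) hD
      (fun j l => if j = 0 then 2 * f l - τ else 2 * g l) (fun l => 2 * -h' l - τ) h2
      (j0 := 0) (j1 := 1) (by decide) (by
        intro l hdvd
        simp only [if_true] at hdvd
        have h4 := hD2.trans hdvd
        have h5 : (2 : ℤ) ∣ 2 * f l := ⟨f l, rfl⟩
        exact hτ ((dvd_sub_right h5).1 h4))
    simp only [if_true] at hs hθ
    refine ⟨Y, Z, ρ, fun i => ?_, fun i => ?_, hs, hθ⟩
    · obtain ⟨m, hm⟩ := hY i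
      refine ⟨m, ?_⟩
      rw [hm]
      simp
    · exact hZ i)
  have e0 : ∀ a b : Fin r → ℤ, ∀ i j, 2 * a i - 2 * b j = 2 * (a i - b j) := fun a b i j => by ring
  have e1 : ∀ i j, 2 * f k + 2 * g i - 2 * -h' j = 2 * (f k + g i + h' j) := fun i j => by ring
  have e2 : ∀ i j, 2 * -h' i - 2 * -h' j = 2 * (h' j - h' i) := fun i j => by ring
  simp only [e1, e2, e0 g g, e0 f f] at key
  have key' : ((∑ i, ∑ j, Q (2 * N) (2 * (g i - g j)) + ∑ i, ∑ j, Q (2 * N) (2 * (h' j - h' i)) -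
      2 * ∑ i, ∑ j, Q (2 * N) (2 * (f k + g i + h' j)) : ℤ) : ℝ) ≤
      ((∑ i, ∑ j, Q (2 * N) (2 * (f i - f j)) -
        2 * r * ∑ l, Q (2 * N) (2 * (f k - f l)) : ℤ) : ℝ) := by
    exact_mod_cast key
  push_cast [Q_bet hN] at key'
  simp only [← mul_sum, sum_sub_distrib, sum_const, card_univ, Fintype.card_fin, nsmul_eq_mul]
    at key'
  have e3 : ∑ i, ∑ j, bet (((h' j : ℝ) - h' i) / N) = ∑ i, ∑ j, bet ((h i : ℝ) / N - (h j : ℝ) / N) := by
    refine sum_congr rfl fun i _ => sum_congr rfl fun j _ => ?_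
    have h1 : ((h' j : ℝ) - h' i) / N = -((h i : ℝ) / N - (h j : ℝ) / N) +
        (((if i = k then M else 0) - (if j = k then M else 0) : ℤ) : ℝ) := by
      simp only [hh']
      split_ifs <;> push_cast <;> field_simp <;> ring
    rw [h1, bet_add_int, bet_neg]
  have e4 : ∑ i, ∑ j, bet (((f k : ℝ) + g i + h' j) / N) =
      ∑ i, ∑ j, bet ((f k : ℝ) / N + (g i : ℝ) / N + (h j : ℝ) / N) := by
    refine sum_congr rfl fun i _ => sum_congr rfl fun j _ => ?_
    have h1 : ((f k : ℝ) + g i + h' j) / N = ((f k : ℝ) / N + (g i : ℝ) / N + (h j : ℝ) / N) +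
        ((-(if j = k then M else 0) : ℤ) : ℝ) := by
      simp only [hh']
      split_ifs <;> push_cast <;> field_simp <;> ring
    rw [h1, bet_add_int]
  have e5 : ∀ a b : Fin r → ℤ, ∑ i, ∑ j, bet (((a i : ℝ) - b j) / N) =
      ∑ i, ∑ j, bet ((a i : ℝ) / N - (b j : ℝ) / N) := fun a b =>
    sum_congr rfl fun i _ => sum_congr rfl fun j _ => by rw [sub_div]
  have e6 : ∑ l, bet (((f k : ℝ) - f l) / N) = ∑ l, bet ((f k : ℝ) / N - (f l : ℝ) / N) :=
    sum_congr rfl fun l _ => by rw [sub_div]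
  rw [e3, e4, e5 g g, e5 f f, e6] at key'
  unfold DK
  have hN2 : (0 : ℝ) < 4 * (N : ℝ) ^ 2 := by positivity
  refine le_of_mul_le_mul_left ?_ hN2
  rw [mul_zero]
  linarith

end base

end Pool.Agent.N858.R4
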