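import Pool.Agent.R340.HK.Cut
import Pool.Agent.R340.MI.Refl
import Pool.Agent.R340.MI.Swap

set_option autoImplicit false

/-!
Elementary modifications of semistable parabolic bundles on the projective line (after the files of
R340 on stable bundles).
-/

open Polynomial Finset

namespace Pool.Agent.N858.R4

open Pool.Agent.Y227.SS
open Pool.Agent.R340.HK (factor order_mul exists_mnr_mul' mnr_mul_diagonal cutw exists_reduced degree_mul_le)

variable {K : Type*} [Field K] {n r s : ℕ}

/-- A parabolic bundle that is semistable, of parabolic degree zero. -/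
structure ParS (β : Fin n → K) (P : Fin n → Matrix (Fin r) (Fin r) K) (w : Fin n → Fin r → ℝ)
    (e : Fin r → ℝ) : Prop where
  det : ∀ j, (P j).det ≠ 0
  nn : ∀ j l, 0 ≤ w j l ∧ w j l ≤ 1
  sum : ∑ j, ∑ l, w j l = ∑ l, e l
  ss : Semistable β P w e

/-- **Elementary modification.** -/
theorem ParS.cut {β : Fin n → K} (hβ : Function.Injective β)
    {P : Fin n → Matrix (Fin r) (Fin r) K} {w : Fin n → Fin r → ℝ} {e : Fin r → ℝ}
    (h : ParS β P w e) (j0 : Fin n) (θ : ℝ) (hθ : 0 ≤ θ ∧ θ ≤ 1) :
    ∃ (P' : Fin n → Matrix (Fin r) (Fin r) K) (e' : Fin r → ℝ) (σ : Equiv.Perm (Fin r)),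
      (∀ l, ∃ k : ℤ, e' l = e (σ l) - θ + k) ∧
      ParS β P' (Function.update w j0 (cutw (w j0) θ)) e' := by
  classical
  set d : Fin r → K[X] := fun l => if w j0 l < θ then X - C (β j0) else 1 with hd
  have hd0 : ∀ l, d l ≠ 0 := by
    intro l
    rw [hd]
    simp only
    split_ifs
    · exact X_sub_C_ne_zero _
    · exact one_ne_zero
  have hu : IsUnit (P j0).det := isUnit_iff_ne_zero.2 (h.det j0)
  set B0 : Matrix (Fin r) (Fin r) K[X] := Matrix.diagonal d * ((P j0)⁻¹).map C with hB0
  have hdetinv : ((P j0)⁻¹).det ≠ 0 := (Matrix.isUnit_nonsing_inv_det _ hu).ne_zero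
  have hmapdet : ∀ (A : Matrix (Fin r) (Fin r) K), (A.map (C : K →+* K[X])).det = C A.det := by
    intro A
    exact ((C : K →+* K[X]).map_det A).symm
  have hevdet : ∀ (A : Matrix (Fin r) (Fin r) K[X]) (b : K), (A.map (eval b)).det = eval b A.det := by
    intro A b
    exact ((evalRingHom b).map_det A).symm
  have hB0det : B0.det = (∏ l, d l) * C ((P j0)⁻¹).det := by
    rw [hB0, Matrix.det_mul, Matrix.det_diagonal, hmapdet]
  have hprod0 : ∏ l, d l ≠ 0 := prod_ne_zero_iff.2 fun l _ => hd0 l
  have hB0ne : B0.det ≠ 0 := by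
    rw [hB0det]
    exact mul_ne_zero hprod0 (C_ne_zero.2 hdetinv)
  obtain ⟨G, e1, σ, hG, hbd, hint, hsum⟩ := exists_reduced B0 hB0ne e
  set B := G * B0 with hB
  have hBdet : B.det ≠ 0 := by
    rw [hB, Matrix.det_mul]
    exact mul_ne_zero hG.ne_zero hB0ne
  have hGev : ∀ b, eval b G.det ≠ 0 := fun b => (hG.map (evalRingHom b)).ne_zero
  have hev : ∀ (A : Matrix (Fin r) (Fin r) K[X]) (Q : Matrix (Fin r) (Fin r) K) (b : K),
      (A * Q.map C).map (eval b) = A.map (eval b) * Q := by
    intro A Q b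
    refine Matrix.ext fun i l => ?_
    simp only [Matrix.map_apply, Matrix.mul_apply, eval_finsetSum, eval_mul, eval_C]
  let P' : Fin n → Matrix (Fin r) (Fin r) K := fun j =>
    if j = j0 then G.map (eval (β j0)) else B.map (eval (β j)) * P j
  have hP'0 : P' j0 = G.map (eval (β j0)) := if_pos rfl
  have hP'j : ∀ j, j ≠ j0 → P' j = B.map (eval (β j)) * P j := fun j hj => if_neg hj
  have hP'det : ∀ j, (P' j).det ≠ 0 := by
    intro j
    by_cases hj : j = j0
    · rw [hj, hP'0, hevdet]
      exact hGev _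
    · rw [hP'j j hj, Matrix.det_mul, hevdet, hB, Matrix.det_mul, hB0det, eval_mul, eval_mul,
        eval_prod, eval_C]
      refine mul_ne_zero (mul_ne_zero (hGev _) (mul_ne_zero (prod_ne_zero_iff.2 fun l _ => ?_)
        hdetinv)) (h.det j)
      rw [hd]
      simp only
      split_ifs
      · rw [eval_sub, eval_X, eval_C, sub_ne_zero]
        exact fun h => hj (hβ h)
      · rw [eval_one]
        exact one_ne_zero
  -- the orders
  have hw' : ∀ l, 0 ≤ cutw (w j0) θ l ∧ cutw (w j0) θ l ≤ 1 := by
    intro l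
    have := h.nn j0 l
    unfold cutw
    split_ifs with hl
    · constructor <;> linarith
    · push Not at hl
      constructor <;> linarith
  have transfer : ∀ (s : ℕ) (V : Matrix (Fin s) (Fin r) K[X]), (∃ J, mnr V J ≠ 0) →
      ∀ τ : Fin n → ℝ, (∀ j J, mnr (V * (P' j).map C) J ≠ 0 →
        τ j ≤ (mnr (V * (P' j).map C) J).rootMultiplicity (β j) +
          ∑ i, Function.update w j0 (cutw (w j0) θ) j (J i)) →
      (∃ J, mnr (V * B) J ≠ 0) ∧ (∀ j J, mnr (V * B * (P j).map C) J ≠ 0 →
        τ j + (if j = j0 then s * θ else 0) ≤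
          (mnr (V * B * (P j).map C) J).rootMultiplicity (β j) + ∑ i, w j (J i)) := by
    intro s V hV τ hτ
    refine ⟨exists_mnr_mul' hV hBdet, fun j J hJ => ?_⟩
    by_cases hj : j = j0
    · subst hj
      rw [if_pos rfl]
      obtain ⟨R, hR⟩ := factor G (β j) (by rw [← hP'0]; exact hP'det j)
      rw [← hP'0] at hR
      have h1 : V * B * (P j).map C = V * G * Matrix.diagonal d := by
        rw [hB, hB0, Matrix.mul_assoc V, Matrix.mul_assoc G, Matrix.mul_assoc (Matrix.diagonal d),
          ← Matrix.map_mul, Matrix.nonsing_inv_mul _ hu]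
        rw [Matrix.map_one _ (map_zero _) (map_one _), Matrix.mul_one, Matrix.mul_assoc]
      rw [h1, mnr_mul_diagonal] at hJ ⊢
      have hJ1 : mnr (V * G) J ≠ 0 := right_ne_zero_of_mul hJ
      have hprod : ∏ i, d (J i) ≠ 0 := left_ne_zero_of_mul hJ
      rw [rootMultiplicity_mul hJ]
      have h2 : (∏ i, d (J i)) = (X - C (β j)) ^ (univ.filter fun i => w j (J i) < θ).card := by
        rw [← prod_const, prod_filter]
      have h3 : (∏ i, d (J i)).rootMultiplicity (β j) =
          (univ.filter fun i => w j (J i) < θ).card := by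
        rw [h2, rootMultiplicity_X_sub_C_pow]
      have h4 : V * G = V * (P' j).map C * (1 + (X - C (β j)) • R) := by
        rw [Matrix.mul_assoc, ← hR]
      rw [h4] at hJ1
      have h5 := order_mul (V * (P' j).map C) (β j) R (cutw (w j) θ) (fun l l' => by
        linarith [(hw' l).2, (hw' l').1]) (τ j) (fun J hJ => by
          have := hτ j J hJ
          rwa [Function.update_self] at this) J hJ1
      rw [← h4] at h5
      have h6 : ∑ i, cutw (w j) θ (J i) = ∑ i, w j (J i) - s * θ +
          (univ.filter fun i => w j (J i) < θ).card := by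
        unfold cutw
        rw [sum_add_distrib, sum_sub_distrib, sum_boole, sum_const, card_univ, Fintype.card_fin,
          nsmul_eq_mul]
      rw [h6] at h5
      rw [h3]
      push_cast
      linarith
    · rw [if_neg hj, add_zero]
      obtain ⟨R, hR⟩ := factor (B * (P j).map C) (β j) (by
        rw [hev, ← hP'j j hj]; exact hP'det j)
      rw [hev, ← hP'j j hj] at hR
      have h4 : V * B * (P j).map C = V * (P' j).map C * (1 + (X - C (β j)) • R) := by
        rw [Matrix.mul_assoc, hR, Matrix.mul_assoc]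
      rw [h4] at hJ ⊢
      exact order_mul (V * (P' j).map C) (β j) R (w j) (fun l l' => by
        linarith [(h.nn j l).2, (h.nn j l').1]) (τ j) (fun J hJ => by
          have := hτ j J hJ
          rwa [Function.update_of_ne hj] at this) J hJ
  have hdeg : ∀ (s : ℕ) (V : Matrix (Fin s) (Fin r) K[X]) (J : Fin s → Fin r), mnr (V * B) J ≠ 0 →
      ∃ J', mnr V J' ≠ 0 ∧ ((mnr (V * B) J).natDegree : ℝ) + ∑ i, e (J i) ≤
        (mnr V J').natDegree + ∑ i, (e1 (J' i) - θ) + s * θ := by
    intro s V J hJ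
    obtain ⟨J', hJ', hle⟩ := degree_mul_le V B e e1 hbd J hJ
    refine ⟨J', hJ', ?_⟩
    rw [sum_sub_distrib, sum_const, card_univ, Fintype.card_fin, nsmul_eq_mul]
    linarith
  have hτsum : ∀ (s : ℕ) (τ : Fin n → ℝ), ∑ j, (τ j + if j = j0 then s * θ else 0) =
      ∑ j, τ j + s * θ := by
    intro s τ
    rw [sum_add_distrib, sum_ite_eq' univ j0, if_pos (mem_univ _)]
  refine ⟨P', fun l => e1 l - θ, σ, fun l => ?_, hP'det, ?_, ?_, ?_⟩
  · obtain ⟨k, hk⟩ := hint l
    exact ⟨k, by dsimp only; rw [hk]; ring⟩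
  · intro j l
    by_cases hj : j = j0
    · rw [hj, Function.update_self]
      exact hw' l
    · rw [Function.update_of_ne hj]
      exact h.nn j l
  · -- the sum
    have hdegdet : B0.det.natDegree = (univ.filter fun l => w j0 l < θ).card := by
      have h2 : (∏ l, d l) = (X - C (β j0)) ^ (univ.filter fun l => w j0 l < θ).card := by
        rw [← prod_const, prod_filter]
      rw [hB0det, h2, natDegree_mul (by rw [← h2]; exact hprod0) (C_ne_zero.2 hdetinv), natDegree_C,
        natDegree_pow, natDegree_X_sub_C, mul_one, add_zero]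
    have h1 : ∑ l, cutw (w j0) θ l = ∑ l, w j0 l - r * θ + (univ.filter fun l => w j0 l < θ).card := by
      unfold cutw
      rw [sum_add_distrib, sum_sub_distrib, sum_boole, sum_const, card_univ, Fintype.card_fin,
        nsmul_eq_mul]
    rw [sum_sub_distrib, hsum, sum_const, card_univ, Fintype.card_fin, nsmul_eq_mul, ← h.sum,
      hdegdet, ← add_sum_erase univ _ (mem_univ j0), Function.update_self, h1,
      ← add_sum_erase univ (fun j => ∑ l, w j l) (mem_univ j0)]
    have h2 : ∑ j ∈ univ.erase j0, ∑ l, Function.update w j0 (cutw (w j0) θ) j l =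
        ∑ j ∈ univ.erase j0, ∑ l, w j l := by
      refine sum_congr rfl fun j hj => ?_
      rw [Function.update_of_ne (ne_of_mem_erase hj)]
    rw [h2]
    ring
  · intro s V hV τ hτ
    obtain ⟨hU, hc⟩ := transfer s V hV τ hτ
    obtain ⟨J, hJ, hle⟩ := h.ss s (V * B) hU _ hc
    obtain ⟨J', hJ', hle'⟩ := hdeg s V J hJ
    refine ⟨J', hJ', ?_⟩
    rw [hτsum] at hle
    linarith

end Pool.Agent.N858.R4
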