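import Pool.Agent.N858.R4.SCut

set_option autoImplicit false

/-!
The weights of semistable bundles: shifts, and the points with integral weights (after R340).
-/

open Polynomial Finset

namespace Pool.Agent.N858.R4

open Pool.Agent.Y227.SS
open Pool.Agent.R340.HK (factor order_mul exists_mnr_mul' mnr_mul_diagonal cutw exists_reduced degree_mul_le)

variable {K : Type*} [Field K] {n r : ℕ}

lemma semi_par {x : Fin n → Fin r → ℝ} {y : Fin r → ℝ} (h : SemistableWeights K x y) :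
    ∃ (β : Fin n → K) (P : Fin n → Matrix (Fin r) (Fin r) K) (w : Fin n → Fin r → ℝ)
      (e : Fin r → ℝ), Function.Injective β ∧
      (∀ j, ∃ σ : Equiv.Perm (Fin r), ∀ l, ∃ m : ℤ, w j l = x j (σ l) + m) ∧
      (∃ σ : Equiv.Perm (Fin r), ∀ l, ∃ m : ℤ, e l = y (σ l) + m) ∧ ParS β P w e := by
  obtain ⟨β, P, w, e, h1, h2, h3, h4, h5, h6, h7⟩ := h
  exact ⟨β, P, w, e, h1, h4, h5, ⟨h2, h3, h6, h7⟩⟩

lemma ParS.semiWeights {β : Fin n → K} (hβ : Function.Injective β)
    {P : Fin n → Matrix (Fin r) (Fin r) K} {w : Fin n → Fin r → ℝ} {e : Fin r → ℝ}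
    (h : ParS β P w e) {x : Fin n → Fin r → ℝ} {y : Fin r → ℝ}
    (hx : ∀ j, ∃ σ : Equiv.Perm (Fin r), ∀ l, ∃ m : ℤ, w j l = x j (σ l) + m)
    (hy : ∃ σ : Equiv.Perm (Fin r), ∀ l, ∃ m : ℤ, e l = y (σ l) + m) : SemistableWeights K x y :=
  ⟨β, P, w, e, hβ, h.det, h.nn, hx, hy, h.sum, h.ss⟩

/-- **Shifts of the weights.** -/
theorem semiWeights_shift {x : Fin n → Fin r → ℝ} {y : Fin r → ℝ} (h : SemistableWeights K x y)
    (j0 : Fin n) (t : ℝ) :
    SemistableWeights K (fun j l => x j l + if j = j0 then t else 0) (fun l => y l + t) := by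
  classical
  obtain ⟨β, P, w, e, hβ, hx, ⟨ρ, hρ⟩, hpar⟩ := semi_par h
  set θ := Int.fract (-t) with hθ
  obtain ⟨P', e', σ, he', hpar'⟩ := hpar.cut hβ j0 θ ⟨Int.fract_nonneg _, (Int.fract_lt_one _).le⟩
  have hθt : θ = -t - ⌊-t⌋ := rfl
  refine hpar'.semiWeights hβ (fun j => ?_) ⟨σ.trans ρ, fun l => ?_⟩
  · by_cases hj : j = j0
    · subst hj
      obtain ⟨σ1, h1⟩ := hx j
      refine ⟨σ1, fun l => ?_⟩
      obtain ⟨m, hm⟩ := h1 l
      rw [Function.update_self, if_pos rfl]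
      unfold cutw
      split_ifs
      · refine ⟨m + ⌊-t⌋ + 1, ?_⟩
        rw [hm, hθt]
        push_cast
        ring
      · refine ⟨m + ⌊-t⌋, ?_⟩
        rw [hm, hθt]
        push_cast
        ring
    · obtain ⟨σ1, h1⟩ := hx j
      refine ⟨σ1, fun l => ?_⟩
      obtain ⟨m, hm⟩ := h1 l
      rw [Function.update_of_ne hj, if_neg hj]
      exact ⟨m, by rw [hm]; ring⟩
  · obtain ⟨k, hk⟩ := he' l
    obtain ⟨m, hm⟩ := hρ (σ l)
    refine ⟨k + m + ⌊-t⌋, ?_⟩
    rw [hk, hm, hθt, Equiv.trans_apply]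
    push_cast
    ring

/-- The weights at a set of points with integral weights can be made zero. -/
theorem semi_trivial {x : Fin n → Fin r → ℝ} {y : Fin r → ℝ} (h : SemistableWeights K x y)
    (S : Finset (Fin n)) (hS : ∀ j ∈ S, ∀ l, ∃ z : ℤ, x j l = z) :
    ∃ (β : Fin n → K) (P : Fin n → Matrix (Fin r) (Fin r) K) (w : Fin n → Fin r → ℝ)
      (e : Fin r → ℝ), Function.Injective β ∧
      (∀ j, ∃ σ : Equiv.Perm (Fin r), ∀ l, ∃ m : ℤ, w j l = x j (σ l) + m) ∧
      (∃ σ : Equiv.Perm (Fin r), ∀ l, ∃ m : ℤ, e l = y (σ l) + m) ∧ ParS β P w e ∧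
      ∀ j ∈ S, ∀ l, w j l = 0 := by
  classical
  induction S using Finset.induction_on with
  | empty =>
    obtain ⟨β, P, w, e, hβ, hx, hy, hpar⟩ := semi_par h
    exact ⟨β, P, w, e, hβ, hx, hy, hpar, by simp⟩
  | insert j0 S hj0 ih =>
    obtain ⟨β, P, w, e, hβ, hx, ⟨ρ, hρ⟩, hpar, hz⟩ := ih fun j hj => hS j (mem_insert_of_mem hj)
    obtain ⟨P', e', σ, he', hpar'⟩ := hpar.cut hβ j0 1 ⟨zero_le_one, le_refl 1⟩
    have hcut : ∀ l, cutw (w j0) 1 l = 0 := by
      intro l
      obtain ⟨σ1, h1⟩ := hx j0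
      obtain ⟨m, hm⟩ := h1 l
      obtain ⟨z, hz⟩ := hS j0 (mem_insert_self _ _) (σ1 l)
      have h2 := hpar.nn j0 l
      have h3 : w j0 l = ((z + m : ℤ) : ℝ) := by
        rw [hm, hz]
        push_cast
        rfl
      rw [h3] at h2
      have h4 : 0 ≤ z + m := by exact_mod_cast h2.1
      have h5 : z + m ≤ 1 := by exact_mod_cast h2.2
      unfold cutw
      rw [h3]
      rcases (by omega : z + m = 0 ∨ z + m = 1) with h6 | h6
      · rw [h6]
        simp
      · rw [h6]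
        simp
    refine ⟨β, P', Function.update w j0 (cutw (w j0) 1), e', hβ, fun j => ?_, ⟨σ.trans ρ, fun l => ?_⟩,
      hpar', fun j hj l => ?_⟩
    · by_cases hj : j = j0
      · subst hj
        obtain ⟨σ1, h1⟩ := hx j
        refine ⟨σ1, fun l => ?_⟩
        obtain ⟨z, hz⟩ := hS j (mem_insert_self _ _) (σ1 l)
        rw [Function.update_self, hcut, hz]
        exact ⟨-z, by push_cast; ring⟩
      · rw [Function.update_of_ne hj]
        exact hx j
    · obtain ⟨k, hk⟩ := he' l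
      obtain ⟨m, hm⟩ := hρ (σ l)
      refine ⟨k + m - 1, ?_⟩
      rw [hk, hm, Equiv.trans_apply]
      push_cast
      ring
    · by_cases hj' : j = j0
      · subst hj'
        rw [Function.update_self]
        exact hcut l
      · rw [Function.update_of_ne hj']
        exact hz j ((mem_insert.1 hj).resolve_left hj') l

/-- **Points with integral weights can be removed.** -/
theorem semiWeights_drop {m : ℕ} {x : Fin n → Fin r → ℝ} {y : Fin r → ℝ}
    (h : SemistableWeights K x y) (ι : Fin m ↪ Fin n)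
    (hint : ∀ j, j ∉ Set.range ι → ∀ l, ∃ z : ℤ, x j l = z) :
    SemistableWeights K (fun i => x (ι i)) y := by
  classical
  obtain ⟨β, P, w, e, hβ, hx, hy, hpar, hz⟩ := semi_trivial h (univ.filter fun j => j ∉ Set.range ι)
    (fun j hj => hint j (mem_filter.1 hj).2)
  have hz' : ∀ j, j ∉ Set.range ι → ∀ l, w j l = 0 := fun j hj =>
    hz j (mem_filter.2 ⟨mem_univ _, hj⟩)
  have hsplit : ∀ f : Fin n → ℝ, (∀ j, j ∉ Set.range ι → f j = 0) → ∑ j, f j = ∑ i, f (ι i) := by
    intro f hf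
    rw [← Finset.sum_add_sum_compl (univ.map ι) f, Finset.sum_map, add_eq_left]
    refine sum_eq_zero fun x hx => hf x fun ⟨i, hi⟩ => ?_
    rw [Finset.mem_compl] at hx
    exact hx (Finset.mem_map.2 ⟨i, mem_univ _, hi⟩)
  -- extension of the orders by zero
  have key : ∀ (s : ℕ) (U : Matrix (Fin s) (Fin r) K[X]) (τ : Fin m → ℝ),
      (∀ i J, mnr (U * (P (ι i)).map C) J ≠ 0 →
        τ i ≤ (mnr (U * (P (ι i)).map C) J).rootMultiplicity (β (ι i)) + ∑ k, w (ι i) (J k)) →
      ∃ τ' : Fin n → ℝ, (∀ j J, mnr (U * (P j).map C) J ≠ 0 →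
        τ' j ≤ (mnr (U * (P j).map C) J).rootMultiplicity (β j) + ∑ k, w j (J k)) ∧
        ∑ j, τ' j = ∑ i, τ i := by
    intro s U τ hτ
    refine ⟨Function.extend ι τ 0, fun j J hJ => ?_, ?_⟩
    · by_cases hj : j ∈ Set.range ι
      · obtain ⟨i, rfl⟩ := hj
        rw [ι.injective.extend_apply]
        exact hτ i J hJ
      · rw [Function.extend_apply' _ _ _ (by simpa using hj)]
        have h1 : ∑ k, w j (J k) = 0 := sum_eq_zero fun k _ => hz' j hj _
        rw [h1, add_zero]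
        exact Nat.cast_nonneg _
    · rw [hsplit]
      · exact sum_congr rfl fun i _ => ι.injective.extend_apply _ _ i
      · intro j hj
        exact Function.extend_apply' _ _ _ (by simpa using hj)
  have hpar' : ParS (fun i => β (ι i)) (fun i => P (ι i)) (fun i => w (ι i)) e := by
    refine ⟨fun i => hpar.det _, fun i l => hpar.nn _ l, ?_, ?_⟩
    · rw [← hpar.sum, hsplit fun j => ∑ l, w j l]
      intro j hj
      exact sum_eq_zero fun l _ => hz' j hj l
    · intro s U hU τ hτ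
      obtain ⟨τ', h1, h2⟩ := key s U τ hτ
      rw [← h2]
      exact hpar.ss s U hU τ' h1
  exact hpar'.semiWeights (hβ.comp ι.injective) (fun i => hx (ι i)) hy

end Pool.Agent.N858.R4
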